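import Mathlib

/-!
Circle averages of Cauchy type: jump relation and sup bounds.
-/

set_option autoImplicit false

open Set Metric Filter Topology Complex Real

namespace Pool.Agent.H720R2.Cor

/-- averages over two circles agree for functions differentiable on the closed annulus -/
theorem avg_annulus {f : ℂ → ℂ} {t₁ t₂ : ℝ} (h1 : 0 < t₁) (h12 : t₁ ≤ t₂)
    (hd : ∀ z : ℂ, t₁ ≤ ‖z‖ → ‖z‖ ≤ t₂ → DifferentiableAt ℂ f z) :
    circleAverage f 0 t₂ = circleAverage f 0 t₁ := by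
  rw [circleAverage_eq_circleIntegral (by linarith : t₂ ≠ 0),
    circleAverage_eq_circleIntegral h1.ne']
  congr 1
  refine Complex.circleIntegral_sub_center_inv_smul_eq_of_differentiable_on_annulus_off_countable
    h1 h12 countable_empty ?_ ?_
  · intro z hz
    have hz2 := hz.2
    rw [mem_ball_zero_iff, not_lt] at hz2
    have hz1 := hz.1
    rw [mem_closedBall_zero_iff] at hz1
    exact (hd z hz2 hz1).continuousAt.continuousWithinAt
  · intro z hz
    have hz2 := hz.1.2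
    rw [mem_closedBall_zero_iff, not_le] at hz2
    have hz1 := hz.1.1
    rw [mem_ball_zero_iff] at hz1
    exact hd z hz2.le hz1.le

theorem avg_inv_outside {t : ℝ} (ht : 0 < t) {x : ℂ} (hx : t < ‖x‖) :
    circleAverage (fun z : ℂ => 1 / (z - x)) 0 t = -(1 / x) := by
  have hd : DiffContOnCl ℂ (fun z : ℂ => 1 / (z - x)) (ball 0 |t|) := by
    rw [abs_of_pos ht]
    refine DifferentiableOn.diffContOnCl ?_
    rw [closure_ball _ ht.ne']
    intro z hz
    rw [mem_closedBall_zero_iff] at hz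
    have hne : z - x ≠ 0 := by
      intro h
      rw [sub_eq_zero] at h
      rw [h] at hz
      linarith
    have h1 : DifferentiableAt ℂ (fun z : ℂ => z - x) z := differentiableAt_id.sub_const x
    exact ((differentiableAt_const (1 : ℂ)).fun_div h1 hne).differentiableWithinAt
  have h := hd.circleAverage
  rw [h]
  rw [zero_sub, one_div, inv_neg, one_div]

theorem avg_inv_inside {t : ℝ} (ht : 0 < t) {x : ℂ} (hx0 : x ≠ 0) (hx : ‖x‖ < t) :
    circleAverage (fun z : ℂ => 1 / (z - x)) 0 t = 0 := by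
  have h1 : circleAverage (fun z : ℂ => ((z - 0) / (z - x)) • (1 : ℂ)) 0 t = 1 := by
    have hd : DiffContOnCl ℂ (fun _ : ℂ => (1 : ℂ)) (ball 0 |t|) := diffContOnCl_const
    exact hd.circleAverage_smul_div (by rw [abs_of_pos ht, mem_ball_zero_iff]; exact hx)
  have hne : ∀ z ∈ sphere (0 : ℂ) |t|, z - x ≠ 0 := by
    intro z hz h
    rw [mem_sphere_zero_iff_norm, abs_of_pos ht] at hz
    rw [sub_eq_zero] at h
    rw [h] at hz
    linarith
  have hint : CircleIntegrable (fun z : ℂ => 1 / (z - x)) 0 t := by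
    refine ContinuousOn.circleIntegrable' ?_
    intro z hz
    exact (continuousAt_const.div (continuousAt_id.sub continuousAt_const)
      (hne z hz)).continuousWithinAt
  have h2 : circleAverage (fun z : ℂ => ((z - 0) / (z - x)) • (1 : ℂ)) 0 t =
      circleAverage (fun z : ℂ => (1 : ℂ) + x • (1 / (z - x))) 0 t := by
    refine circleAverage_congr_sphere (fun z hz => ?_)
    have := hne z hz
    simp only [sub_zero, smul_eq_mul, mul_one]
    field_simp
    ring
  have h5 : circleAverage (fun z : ℂ => (1 : ℂ) + x • (1 / (z - x))) 0 t =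
      circleAverage (fun _ : ℂ => (1 : ℂ)) 0 t + circleAverage (fun z : ℂ => x • (1 / (z - x))) 0 t :=
    circleAverage_fun_add (circleIntegrable_const _ _ _) (hint.const_smul (a := x))
  rw [h2, h5, circleAverage_const] at h1
  have h3 : circleAverage (fun z : ℂ => x • (1 / (z - x))) 0 t =
      x • circleAverage (fun z : ℂ => 1 / (z - x)) 0 t := circleAverage_fun_smul
  rw [h3] at h1
  have h4 : x • circleAverage (fun z : ℂ => 1 / (z - x)) 0 t = 0 := by
    linear_combination h1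
  rcases smul_eq_zero.1 h4 with h | h
  · exact absurd h hx0
  · exact h

/-- The jump relation. -/
theorem jump {f : ℂ → ℂ} {t₁ t₂ : ℝ} (h1 : 0 < t₁) {x : ℂ} (hx1 : t₁ < ‖x‖) (hx2 : ‖x‖ < t₂)
    (hd : ∀ z : ℂ, t₁ ≤ ‖z‖ → ‖z‖ ≤ t₂ → DifferentiableAt ℂ f z) :
    circleAverage (fun z => f z / (z - x)) 0 t₂ - circleAverage (fun z => f z / (z - x)) 0 t₁ =
      f x / x := by
  have ht₂ : 0 < t₂ := by linarith
  have hx0 : x ≠ 0 := by
    intro h
    rw [h, norm_zero] at hx1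
    linarith
  -- the difference quotient
  have hdq : ∀ z : ℂ, t₁ ≤ ‖z‖ → ‖z‖ ≤ t₂ → DifferentiableAt ℂ (dslope f x) z := by
    have hU : IsOpen {z : ℂ | t₁ < ‖z‖ ∧ ‖z‖ < t₂} :=
      (isOpen_lt continuous_const continuous_norm).inter (isOpen_lt continuous_norm continuous_const)
    intro z hz1 hz2
    by_cases hzx : z = x
    · have hdU : DifferentiableOn ℂ f {z : ℂ | t₁ < ‖z‖ ∧ ‖z‖ < t₂} := fun w hw =>
        (hd w hw.1.le hw.2.le).differentiableWithinAt
      have hxU : {z : ℂ | t₁ < ‖z‖ ∧ ‖z‖ < t₂} ∈ 𝓝 x := hU.mem_nhds ⟨hx1, hx2⟩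
      rw [hzx]
      exact ((differentiableOn_dslope hxU).2 hdU).differentiableAt hxU
    · exact (differentiableAt_dslope_of_ne hzx).2 (hd z hz1 hz2)
  have hcongr : ∀ t : ℝ, 0 < t → t₁ ≤ t → t ≤ t₂ → t ≠ ‖x‖ →
      circleAverage (fun z => f z / (z - x)) 0 t =
        circleAverage (dslope f x) 0 t + f x * circleAverage (fun z : ℂ => 1 / (z - x)) 0 t := by
    intro t ht ht1 ht2 htx
    have hne : ∀ z ∈ sphere (0 : ℂ) |t|, z - x ≠ 0 := by
      intro z hz h
      rw [mem_sphere_zero_iff_norm, abs_of_pos ht] at hz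
      rw [sub_eq_zero] at h
      rw [h] at hz
      exact htx hz.symm
    have hint : CircleIntegrable (fun z : ℂ => 1 / (z - x)) 0 t := by
      refine ContinuousOn.circleIntegrable' ?_
      intro z hz
      exact (continuousAt_const.div (continuousAt_id.sub continuousAt_const)
        (hne z hz)).continuousWithinAt
    have hint2 : CircleIntegrable (dslope f x) 0 t := by
      refine ContinuousOn.circleIntegrable' ?_
      intro z hz
      rw [mem_sphere_zero_iff_norm, abs_of_pos ht] at hz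
      exact (hdq z (by rw [hz]; exact ht1) (by rw [hz]; exact ht2)).continuousAt.continuousWithinAt
    have h2 : circleAverage (fun z => f z / (z - x)) 0 t =
        circleAverage (fun z => dslope f x z + (f x) • (1 / (z - x))) 0 t := by
      refine circleAverage_congr_sphere (fun z hz => ?_)
      have h3 := hne z hz
      have h4 : z ≠ x := sub_ne_zero.1 h3
      simp only [dslope_of_ne _ h4, slope_def_field, smul_eq_mul]
      field_simp
      ring
    have h5 : circleAverage (fun z => dslope f x z + (f x) • (1 / (z - x))) 0 t =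
        circleAverage (dslope f x) 0 t + circleAverage (fun z : ℂ => (f x) • (1 / (z - x))) 0 t :=
      circleAverage_fun_add hint2 (hint.const_smul (a := f x))
    rw [h2, h5]
    congr 1
    exact circleAverage_fun_smul
  rw [hcongr t₂ ht₂ (by linarith) le_rfl (by linarith), hcongr t₁ h1 le_rfl (by linarith)
    (by linarith), avg_inv_inside ht₂ hx0 hx2, avg_inv_outside h1 hx1,
    avg_annulus h1 (by linarith) hdq]
  field_simp
  ring

theorem norm_avg_le {f : ℂ → ℂ} {c : ℂ} {R : ℝ} {b : ℂ → ℝ} (hb : CircleIntegrable b c R)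
    (h : ∀ z ∈ sphere c |R|, ‖f z‖ ≤ b z) : ‖circleAverage f c R‖ ≤ circleAverage b c R := by
  rw [circleAverage, circleAverage, norm_smul, smul_eq_mul, Real.norm_of_nonneg (by positivity)]
  refine mul_le_mul_of_nonneg_left ?_ (by positivity)
  refine intervalIntegral.norm_integral_le_of_norm_le (by positivity) ?_ hb
  refine Filter.Eventually.of_forall (fun θ _ => ?_)
  exact h _ (circleMap_mem_sphere' c R θ)

theorem hne_sphere {t : ℝ} (ht : 0 < t) {x : ℂ} (hx : ‖x‖ ≠ t) :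
    ∀ z ∈ sphere (0 : ℂ) |t|, z - x ≠ 0 := by
  intro z hz h
  rw [mem_sphere_zero_iff_norm, abs_of_pos ht] at hz
  rw [sub_eq_zero] at h
  rw [h] at hz
  exact hx hz

theorem integrable_inv_pow {t : ℝ} (ht : 0 < t) {x : ℂ} (hx : ‖x‖ ≠ t) (n : ℕ) :
    CircleIntegrable (fun z : ℂ => 1 / ‖z - x‖ ^ n) 0 t := by
  refine ContinuousOn.circleIntegrable' ?_
  intro z hz
  have h1 := hne_sphere ht hx z hz
  have h2 : ContinuousAt (fun z : ℂ => ‖z - x‖ ^ n) z := by fun_prop
  exact (continuousAt_const.div h2 (pow_ne_zero _ (norm_ne_zero_iff.2 h1))).continuousWithinAt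

theorem avg_inv_sq_inside {t : ℝ} (ht : 0 < t) {x : ℂ} (hx : ‖x‖ < t) :
    circleAverage (fun z : ℂ => 1 / ‖z - x‖ ^ 2) 0 t = 1 / (t ^ 2 - ‖x‖ ^ 2) := by
  have hd : DiffContOnCl ℂ (fun _ : ℂ => (1 : ℂ)) (ball (0 : ℂ) t) := diffContOnCl_const
  have h1 := DiffContOnCl.circleAverage_poissonKernel_smul' hd
    (w := x) (by rw [mem_ball_zero_iff]; exact hx)
  have hpos : 0 < t ^ 2 - ‖x‖ ^ 2 := by
    have := norm_nonneg x
    nlinarith
  have h2 : circleAverage (fun z : ℂ => ((‖z - 0‖ ^ 2 - ‖x - 0‖ ^ 2) /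
      ‖(z - 0) - (x - 0)‖ ^ 2) • (1 : ℂ)) 0 t =
      circleAverage (ofRealCLM ∘ (fun z : ℂ => (t ^ 2 - ‖x‖ ^ 2) • (1 / ‖z - x‖ ^ 2))) 0 t := by
    refine circleAverage_congr_sphere (fun z hz => ?_)
    have hz' : ‖z‖ = t := by rwa [mem_sphere_zero_iff_norm, abs_of_pos ht] at hz
    simp only [sub_zero, Function.comp_apply, ofRealCLM_apply, smul_eq_mul, hz', real_smul,
      mul_one]
    congr 1
    ring
  have hint := (integrable_inv_pow ht hx.ne 2)
  have hint2 : CircleIntegrable (fun z : ℂ => (t ^ 2 - ‖x‖ ^ 2) • (1 / ‖z - x‖ ^ 2)) 0 t :=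
    hint.const_smul (a := (t ^ 2 - ‖x‖ ^ 2))
  have h5 : circleAverage (fun z : ℂ => (t ^ 2 - ‖x‖ ^ 2) • (1 / ‖z - x‖ ^ 2)) 0 t =
    (t ^ 2 - ‖x‖ ^ 2) • circleAverage (fun z : ℂ => 1 / ‖z - x‖ ^ 2) 0 t :=
    circleAverage_fun_smul
  rw [h2, ContinuousLinearMap.circleAverage_comp_comm _ hint2, h5] at h1
  simp only [smul_eq_mul, ofRealCLM_apply] at h1
  have h6 : (t ^ 2 - ‖x‖ ^ 2) * circleAverage (fun z : ℂ => 1 / ‖z - x‖ ^ 2) 0 t = 1 := by
    exact_mod_cast h1
  field_simp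
  linarith

theorem avg_inv_sq_outside {t : ℝ} (ht : 0 < t) {x : ℂ} (hx : t < ‖x‖) :
    circleAverage (fun z : ℂ => 1 / ‖z - x‖ ^ 2) 0 t = 1 / (‖x‖ ^ 2 - t ^ 2) := by
  have hxpos : 0 < ‖x‖ := by linarith
  have hx0 : x ≠ 0 := norm_pos_iff.1 hxpos
  set c : ℂ := starRingEnd ℂ x with hc
  have hcn : ‖c‖ = ‖x‖ := by rw [hc, RCLike.norm_conj]
  have hc0 : c ≠ 0 := by
    intro h
    rw [h, norm_zero] at hcn
    linarith
  set w : ℂ := (t : ℂ) ^ 2 / c with hw
  have hwn : ‖w‖ = t ^ 2 / ‖x‖ := by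
    rw [hw, norm_div, norm_pow, Complex.norm_real, Real.norm_of_nonneg ht.le, hcn]
  have hwt : ‖w‖ < t := by
    rw [hwn, div_lt_iff₀ hxpos]
    nlinarith
  have h1 := avg_inv_sq_inside ht hwt
  have h2 : circleAverage (fun z : ℂ => 1 / ‖z - x‖ ^ 2) 0 t =
      circleAverage (fun z : ℂ => (t ^ 2 / ‖x‖ ^ 2) • (1 / ‖z - w‖ ^ 2)) 0 t := by
    refine circleAverage_congr_sphere (fun z hz => ?_)
    have hz' : ‖z‖ = t := by rwa [mem_sphere_zero_iff_norm, abs_of_pos ht] at hz
    have h3 : (t : ℂ) ^ 2 = z * starRingEnd ℂ z := by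
      rw [Complex.mul_conj, Complex.normSq_eq_norm_sq, hz']
      push_cast
      rfl
    have h4 : ‖z - w‖ = t * ‖z - x‖ / ‖x‖ := by
      have h5 : z - w = z * starRingEnd ℂ (x - z) / c := by
        rw [hw, h3, map_sub, ← hc]
        field_simp
      rw [h5, norm_div, norm_mul, RCLike.norm_conj, hz', hcn, norm_sub_rev]
    have h6 : z - x ≠ 0 := hne_sphere ht hx.ne' z hz
    have h7 : 0 < ‖z - x‖ := norm_pos_iff.2 h6
    rw [h4, smul_eq_mul]
    field_simp
  have h5 : circleAverage (fun z : ℂ => (t ^ 2 / ‖x‖ ^ 2) • (1 / ‖z - w‖ ^ 2)) 0 t =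
    (t ^ 2 / ‖x‖ ^ 2) • circleAverage (fun z : ℂ => 1 / ‖z - w‖ ^ 2) 0 t :=
    circleAverage_fun_smul
  have hpos : 0 < ‖x‖ ^ 2 - t ^ 2 := by nlinarith
  have hpos2 : 0 < t ^ 2 - (t ^ 2 / ‖x‖) ^ 2 := by
    rw [hwn] at hwt
    have : 0 ≤ t ^ 2 / ‖x‖ := by positivity
    nlinarith
  rw [h2, h5, h1, hwn, smul_eq_mul]
  rw [div_mul_div_comm, div_eq_div_iff (by positivity) (by positivity)]
  field_simp

/-- The basic bound for averages of the Cauchy kernel. -/
theorem avg_inv_le {t : ℝ} (ht : 0 < t) {x : ℂ} (hx : ‖x‖ ≠ t) :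
    circleAverage (fun z : ℂ => 1 / ‖z - x‖) 0 t ≤ 1 / √|t ^ 2 - ‖x‖ ^ 2| := by
  have hxn := norm_nonneg x
  have hD : 0 < |t ^ 2 - ‖x‖ ^ 2| := by
    rw [abs_pos]
    intro h
    apply hx
    have h1 : (t - ‖x‖) * (t + ‖x‖) = 0 := by linarith
    rcases mul_eq_zero.1 h1 with h2 | h2
    · linarith
    · linarith
  have hsq : circleAverage (fun z : ℂ => 1 / ‖z - x‖ ^ 2) 0 t = 1 / |t ^ 2 - ‖x‖ ^ 2| := by
    rcases lt_or_gt_of_ne hx with h | h
    · rw [avg_inv_sq_inside ht h, abs_of_pos]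
      nlinarith
    · rw [avg_inv_sq_outside ht h, abs_of_neg (by nlinarith)]
      congr 1
      ring
  set D := |t ^ 2 - ‖x‖ ^ 2| with hDdef
  have hs : 0 < √D := Real.sqrt_pos.2 hD
  have hss : √D * √D = D := Real.mul_self_sqrt hD.le
  have hint1 : CircleIntegrable (fun z : ℂ => 1 / ‖z - x‖) 0 t := by
    have := integrable_inv_pow ht hx 1
    simpa using this
  have hint2 := integrable_inv_pow ht hx 2
  have hint3 : CircleIntegrable (fun z : ℂ => (√D / 2) • (1 / ‖z - x‖ ^ 2)) 0 t :=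
    hint2.const_smul (a := √D / 2)
  have h1 : circleAverage (fun z : ℂ => 1 / ‖z - x‖) 0 t ≤
      circleAverage (fun z : ℂ => 1 / (2 * √D) + (√D / 2) • (1 / ‖z - x‖ ^ 2)) 0 t := by
    refine circleAverage_mono hint1 ((circleIntegrable_const _ _ _).add hint3) (fun z hz => ?_)
    have h6 : z - x ≠ 0 := hne_sphere ht hx z hz
    have h7 : 0 < ‖z - x‖ := norm_pos_iff.2 h6
    rw [smul_eq_mul]
    have h8 : 0 ≤ (1 / √D - 1 / ‖z - x‖) ^ 2 * (√D / 2) := by positivity
    have h9 : (1 / √D - 1 / ‖z - x‖) ^ 2 * (√D / 2) =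
        1 / (2 * √D) + √D / 2 * (1 / ‖z - x‖ ^ 2) - 1 / ‖z - x‖ := by
      field_simp
      ring
    linarith
  have h5 : circleAverage (fun z : ℂ => 1 / (2 * √D) + (√D / 2) • (1 / ‖z - x‖ ^ 2)) 0 t =
      1 / (2 * √D) + (√D / 2) * (1 / D) := by
    have h6 : circleAverage (fun z : ℂ => 1 / (2 * √D) + (√D / 2) • (1 / ‖z - x‖ ^ 2)) 0 t =
      circleAverage (fun _ : ℂ => 1 / (2 * √D)) 0 t +
        circleAverage (fun z : ℂ => (√D / 2) • (1 / ‖z - x‖ ^ 2)) 0 t :=
      circleAverage_fun_add (circleIntegrable_const _ _ _) hint3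
    have h7 : circleAverage (fun z : ℂ => (√D / 2) • (1 / ‖z - x‖ ^ 2)) 0 t =
      (√D / 2) • circleAverage (fun z : ℂ => 1 / ‖z - x‖ ^ 2) 0 t := circleAverage_fun_smul
    rw [h6, circleAverage_const, h7, hsq, smul_eq_mul]
  refine (h1.trans (le_of_eq h5)).trans (le_of_eq ?_)
  have : (√D / 2) * (1 / D) = 1 / (2 * √D) := by
    rw [div_mul_div_comm, mul_one, div_eq_div_iff (by positivity) (by positivity)]
    linear_combination (2 : ℝ) * hss
  rw [this]
  field_simp
  ring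

end Pool.Agent.H720R2.Cor
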