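import Mathlib

/-!
Geometry of the slices of the ball and a sum estimate.
-/

set_option autoImplicit false

open Set Metric Filter Topology Complex Real

namespace Pool.Agent.H720R2.Cor

variable {E : Type} [NormedAddCommGroup E] [NormedSpace ℂ E]

/-- the ball `|x|² + ‖y‖² < R` -/
def BB (E : Type) [NormedAddCommGroup E] (R : ℝ) : Set (ℂ × E) :=
  {p | ‖p.1‖ ^ 2 + ‖p.2‖ ^ 2 < R}

theorem isOpen_BB (R : ℝ) : IsOpen (BB E R) := by
  refine isOpen_lt ?_ continuous_const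
  fun_prop

/-- the slice map -/
noncomputable def Yf (s : ℝ) (ζ : ℂ) (p : ℂ × E) : E :=
  (((1 - s ^ 2 : ℝ) : ℂ) * ζ / (ζ - ((s ^ 2 : ℝ) : ℂ) * p.1)) • p.2

theorem fst_lt_one {p : ℂ × E} (hp : p ∈ BB E 1) : ‖p.1‖ < 1 := by
  have h1 : ‖p.1‖ ^ 2 + ‖p.2‖ ^ 2 < 1 := hp
  have h2 := norm_nonneg p.1
  nlinarith [norm_nonneg p.2]

theorem den_ne {s ε : ℝ} (hs : 0 < s) (hs4 : s ≤ 1 / 4) (hεs : ε ≤ s / 2) {ζ : ℂ}
    (hζ : |‖ζ‖ - s| ≤ ε) {p : ℂ × E} (hp : p ∈ BB E 1) :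
    0 < ‖ζ‖ - s ^ 2 * ‖p.1‖ ∧ ‖ζ‖ - s ^ 2 * ‖p.1‖ ≤ ‖ζ - ((s ^ 2 : ℝ) : ℂ) * p.1‖ := by
  have h1 := fst_lt_one hp
  have h0 := norm_nonneg p.1
  have h2 := abs_le.1 hζ
  constructor
  · nlinarith [h2.1]
  · have h3 : ‖((s ^ 2 : ℝ) : ℂ) * p.1‖ = s ^ 2 * ‖p.1‖ := by
      rw [norm_mul, Complex.norm_real, Real.norm_of_nonneg (by positivity)]
    rw [← h3]
    exact norm_sub_norm_le _ _

theorem geom {s ε : ℝ} (hs : 0 < s) (hs4 : s ≤ 1 / 4) (hε : 0 < ε) (hεs : ε ≤ s / 2) {ζ : ℂ}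
    (hζ : |‖ζ‖ - s| ≤ ε) {p : ℂ × E} (hp : p ∈ BB E 1) :
    (ζ, Yf s ζ p) ∈ BB E (1 + 34 * ε ^ 2) := by
  have hx1 := fst_lt_one hp
  have hx0 := norm_nonneg p.1
  have hy0 := norm_nonneg p.2
  have hp' : ‖p.1‖ ^ 2 + ‖p.2‖ ^ 2 < 1 := hp
  have h2 := abs_le.1 hζ
  obtain ⟨hd1, hd2⟩ := den_ne hs hs4 hεs hζ hp
  change ‖ζ‖ ^ 2 + ‖Yf s ζ p‖ ^ 2 < 1 + 34 * ε ^ 2
  set t := ‖ζ‖ with ht
  set x := ‖p.1‖ with hx
  set y := ‖p.2‖ with hy
  have hts : s / 2 ≤ t := by linarith [h2.1]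
  have hts2 : t ≤ 3 / 2 * s := by linarith [h2.2]
  have ht0 : 0 < t := by linarith
  have hdpos : 0 < ‖ζ - ((s ^ 2 : ℝ) : ℂ) * p.1‖ := by linarith
  have hs2 : 0 < 1 - s ^ 2 := by nlinarith
  have hY : ‖Yf s ζ p‖ = (1 - s ^ 2) * t / ‖ζ - ((s ^ 2 : ℝ) : ℂ) * p.1‖ * y := by
    rw [Yf, norm_smul, norm_div, norm_mul, Complex.norm_real, Real.norm_of_nonneg hs2.le]
  set Y := ‖Yf s ζ p‖ with hYd
  have hY0 : 0 ≤ Y := norm_nonneg _
  set d := ‖ζ - ((s ^ 2 : ℝ) : ℂ) * p.1‖ with hd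
  have hYd' : Y * d = (1 - s ^ 2) * t * y := by
    rw [hY]
    field_simp
  have hYle : Y * (t - s ^ 2 * x) ≤ (1 - s ^ 2) * t * y := by
    rw [← hYd']
    exact mul_le_mul_of_nonneg_left hd2 hY0
  have hsq : (Y * (t - s ^ 2 * x)) ^ 2 ≤ ((1 - s ^ 2) * t * y) ^ 2 :=
    pow_le_pow_left₀ (mul_nonneg hY0 hd1.le) hYle 2
  have h9 : (3 / 16) * s ^ 2 ≤ t ^ 2 - s ^ 4 := by
    have h10 : s ^ 4 ≤ s ^ 2 / 16 := by
      have h16 : s ^ 2 ≤ 1 / 16 := by nlinarith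
      calc s ^ 4 = s ^ 2 * s ^ 2 := by ring
        _ ≤ s ^ 2 * (1 / 16) := by gcongr
        _ = s ^ 2 / 16 := by ring
    have h14 : s ^ 2 / 4 ≤ t ^ 2 := by
      have : (s / 2) ^ 2 ≤ t ^ 2 := pow_le_pow_left₀ (by linarith) hts 2
      linarith [this, (by ring : (s / 2) ^ 2 = s ^ 2 / 4)]
    linarith
  have hs22 : 0 < s ^ 2 := by positivity
  have hts4 : 0 < t ^ 2 - s ^ 4 := by linarith
  have hx2 : 0 < 1 - x ^ 2 := by nlinarith
  have hgeo : (t ^ 2 - s ^ 4) * (1 - x ^ 2) ≤ (t - s ^ 2 * x) ^ 2 := by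
    nlinarith [sq_nonneg (t * x - s ^ 2)]
  have h3 : Y ^ 2 * ((t ^ 2 - s ^ 4) * (1 - x ^ 2)) ≤ ((1 - s ^ 2) * t) ^ 2 * (1 - x ^ 2) := by
    calc Y ^ 2 * ((t ^ 2 - s ^ 4) * (1 - x ^ 2)) ≤ Y ^ 2 * (t - s ^ 2 * x) ^ 2 := by gcongr
      _ = (Y * (t - s ^ 2 * x)) ^ 2 := by ring
      _ ≤ ((1 - s ^ 2) * t * y) ^ 2 := hsq
      _ = ((1 - s ^ 2) * t) ^ 2 * y ^ 2 := by ring
      _ ≤ ((1 - s ^ 2) * t) ^ 2 * (1 - x ^ 2) := by
          gcongr
          linarith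
  have h4 : Y ^ 2 * (t ^ 2 - s ^ 4) ≤ ((1 - s ^ 2) * t) ^ 2 := by
    have : Y ^ 2 * (t ^ 2 - s ^ 4) * (1 - x ^ 2) ≤ ((1 - s ^ 2) * t) ^ 2 * (1 - x ^ 2) := by
      linarith
    exact le_of_mul_le_mul_right this hx2
  have h5 : (t ^ 2 + Y ^ 2 - 1) * (t ^ 2 - s ^ 4) ≤ (t ^ 2 - s ^ 2) ^ 2 := by nlinarith
  have h6 : (t ^ 2 - s ^ 2) ^ 2 ≤ (25 / 4) * ε ^ 2 * s ^ 2 := by
    have h7 : |t ^ 2 - s ^ 2| ≤ 5 / 2 * ε * s := by
      have : t ^ 2 - s ^ 2 = (t - s) * (t + s) := by ring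
      rw [this, abs_mul]
      have h8 : |t + s| ≤ 5 / 2 * s := by
        rw [abs_of_pos (by linarith)]
        linarith
      calc |t - s| * |t + s| ≤ ε * (5 / 2 * s) := by gcongr
        _ = 5 / 2 * ε * s := by ring
    have h8 := sq_le_sq' (by linarith [neg_abs_le (t ^ 2 - s ^ 2), abs_nonneg (t ^ 2 - s ^ 2)])
      ((le_abs_self _).trans h7)
    nlinarith [h8]
  by_contra hcon
  rw [not_lt] at hcon
  have h11 : 34 * ε ^ 2 * (t ^ 2 - s ^ 4) ≤ (25 / 4) * ε ^ 2 * s ^ 2 := by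
    calc 34 * ε ^ 2 * (t ^ 2 - s ^ 4) ≤ (t ^ 2 + Y ^ 2 - 1) * (t ^ 2 - s ^ 4) := by
          gcongr
          linarith
      _ ≤ _ := h5.trans h6
  have h12 : 34 * ε ^ 2 * ((3 / 16) * s ^ 2) ≤ (25 / 4) * ε ^ 2 * s ^ 2 :=
    (by gcongr : 34 * ε ^ 2 * ((3 / 16) * s ^ 2) ≤ 34 * ε ^ 2 * (t ^ 2 - s ^ 4)).trans h11
  have h13 : 0 < ε ^ 2 * s ^ 2 := by positivity
  nlinarith

/-! ### the sum estimate -/

theorem inv_sqrt_le {v : ℝ} (hv : 1 ≤ v) : 1 / √v ≤ 2 * (√v - √(v - 1)) := by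
  have h0 : 0 < √v := Real.sqrt_pos.2 (by linarith)
  have h1 : 0 ≤ √(v - 1) := Real.sqrt_nonneg _
  have h2 : √v * √v = v := Real.mul_self_sqrt (by linarith)
  have h3 : √(v - 1) * √(v - 1) = v - 1 := Real.mul_self_sqrt (by linarith)
  have h4 : √(v - 1) ≤ √v := Real.sqrt_le_sqrt (by linarith)
  rw [div_le_iff₀ h0]
  nlinarith

theorem sum_right (u : ℝ) (M : ℕ) :
    ∑ j ∈ Finset.range M, (if 1 ≤ (j : ℝ) - u then 1 / √((j : ℝ) - u) else 0) ≤ 2 * √M := by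
  have h1 : ∀ j ∈ Finset.range M, (if 1 ≤ (j : ℝ) - u then 1 / √((j : ℝ) - u) else 0) ≤
      2 * (√(((j + 1 : ℕ) : ℝ) - 1 - u) - √((j : ℝ) - 1 - u)) := by
    intro j _
    have hle : √((j : ℝ) - 1 - u) ≤ √(((j + 1 : ℕ) : ℝ) - 1 - u) := by
      refine Real.sqrt_le_sqrt ?_
      push_cast
      linarith
    split_ifs with h
    · have h2 := inv_sqrt_le h
      have e1 : ((j + 1 : ℕ) : ℝ) - 1 - u = (j : ℝ) - u := by push_cast; ring
      have e2 : (j : ℝ) - 1 - u = (j : ℝ) - u - 1 := by ring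
      rw [e1, e2]
      exact h2
    · linarith
  refine (Finset.sum_le_sum h1).trans ?_
  rw [← Finset.mul_sum, Finset.sum_range_sub (fun j : ℕ => √((j : ℝ) - 1 - u))]
  have h2 : √((M : ℝ) - 1 - u) ≤ √(((0 : ℕ) : ℝ) - 1 - u) + √M := by
    by_cases hneg : (0 : ℝ) ≤ -1 - u
    · rw [Real.sqrt_le_left (by positivity)]
      have h3 := Real.sq_sqrt hneg
      have h4 := Real.sq_sqrt (Nat.cast_nonneg M : (0 : ℝ) ≤ M)
      have e1 : ((0 : ℕ) : ℝ) - 1 - u = -1 - u := by push_cast; ring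
      rw [e1]
      nlinarith [Real.sqrt_nonneg (-1 - u), Real.sqrt_nonneg (M : ℝ)]
    · rw [not_le] at hneg
      have h3 : √((M : ℝ) - 1 - u) ≤ √(M : ℝ) := Real.sqrt_le_sqrt (by linarith)
      have := Real.sqrt_nonneg (((0 : ℕ) : ℝ) - 1 - u)
      linarith
  linarith

theorem sum_left (u : ℝ) (M : ℕ) :
    ∑ j ∈ Finset.range M, (if 1 ≤ u - (j : ℝ) then 1 / √(u - (j : ℝ)) else 0) ≤ 2 * √M := by
  have h1 : ∀ j ∈ Finset.range M, (if 1 ≤ u - (j : ℝ) then 1 / √(u - (j : ℝ)) else 0) ≤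
      2 * (-√(u - ((j + 1 : ℕ) : ℝ)) - -√(u - (j : ℝ))) := by
    intro j _
    have hle : √(u - ((j + 1 : ℕ) : ℝ)) ≤ √(u - (j : ℝ)) := by
      refine Real.sqrt_le_sqrt ?_
      push_cast
      linarith
    split_ifs with h
    · have h2 := inv_sqrt_le h
      have e1 : u - ((j + 1 : ℕ) : ℝ) = u - (j : ℝ) - 1 := by push_cast; ring
      rw [e1]
      linarith
    · linarith
  refine (Finset.sum_le_sum h1).trans ?_
  rw [← Finset.mul_sum, Finset.sum_range_sub (fun j : ℕ => -√(u - (j : ℝ)))]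
  have h2 : √(u - ((0 : ℕ) : ℝ)) ≤ √(u - (M : ℝ)) + √M := by
    have e1 : u - ((0 : ℕ) : ℝ) = u := by push_cast; ring
    rw [e1]
    by_cases hneg : (0 : ℝ) ≤ u - M
    · rw [Real.sqrt_le_left (by positivity)]
      have h3 := Real.sq_sqrt hneg
      have h4 := Real.sq_sqrt (Nat.cast_nonneg M : (0 : ℝ) ≤ M)
      nlinarith [Real.sqrt_nonneg (u - M), Real.sqrt_nonneg (M : ℝ)]
    · rw [not_le] at hneg
      have h3 : √u ≤ √(M : ℝ) := Real.sqrt_le_sqrt (by linarith)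
      have := Real.sqrt_nonneg (u - M)
      linarith
  linarith

theorem card_near (u : ℝ) (M : ℕ) :
    ((Finset.range M).filter (fun j : ℕ => |(j : ℝ) - u| < 1)).card ≤ 2 := by
  have hsub : (Finset.range M).filter (fun j : ℕ => |(j : ℝ) - u| < 1) ⊆
      {⌊u⌋.toNat, (⌊u⌋ + 1).toNat} := by
    intro j hj
    rw [Finset.mem_filter] at hj
    have h := abs_lt.1 hj.2
    have h1 : ⌊u⌋ ≤ (j : ℤ) := by
      have : ⌊u⌋ < (j : ℤ) + 1 := by
        rw [Int.floor_lt]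
        push_cast
        linarith
      omega
    have h2 : (j : ℤ) ≤ ⌊u⌋ + 1 := by
      have : ((j : ℤ) - 1 : ℤ) ≤ ⌊u⌋ := by
        rw [Int.le_floor]
        push_cast
        linarith
      omega
    rw [Finset.mem_insert, Finset.mem_singleton]
    omega
  exact (Finset.card_le_card hsub).trans Finset.card_le_two

/-- the sum estimate: an average of `1 / √max(ε, |s_j - a|)` -/
theorem sum_bound {s₁ κ ε : ℝ} (hκ : 0 < κ) (hε : 0 < ε) (a : ℝ) {M : ℕ} (hM : 0 < M)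
    (hMε : 1 / √ε ≤ M) :
    (1 / (M : ℝ)) * ∑ j ∈ Finset.range M, 1 / √(max ε |s₁ + κ * j / M - a|) ≤
      2 + 4 / √κ := by
  have hM' : (0 : ℝ) < M := by exact_mod_cast hM
  set d := κ / M with hd
  have hdpos : 0 < d := by positivity
  set u := (a - s₁) / d with hu
  have hdist : ∀ j : ℕ, s₁ + κ * j / M - a = d * ((j : ℝ) - u) := by
    intro j
    rw [hu, hd]
    field_simp
    ring
  have hterm : ∀ j ∈ Finset.range M, 1 / √(max ε |s₁ + κ * j / M - a|) ≤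
      (if |(j : ℝ) - u| < 1 then 1 / √ε else 0) +
      (1 / √d) * ((if 1 ≤ (j : ℝ) - u then 1 / √((j : ℝ) - u) else 0) +
        (if 1 ≤ u - (j : ℝ) then 1 / √(u - (j : ℝ)) else 0)) := by
    intro j _
    have hsd : 0 < √d := Real.sqrt_pos.2 hdpos
    have hse : 0 < √ε := Real.sqrt_pos.2 hε
    by_cases h1 : |(j : ℝ) - u| < 1
    · rw [if_pos h1]
      have h2 : 1 / √(max ε |s₁ + κ * j / M - a|) ≤ 1 / √ε :=
        one_div_le_one_div_of_le hse (Real.sqrt_le_sqrt (le_max_left _ _))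
      have h3 : (0 : ℝ) ≤ (1 / √d) * ((if 1 ≤ (j : ℝ) - u then 1 / √((j : ℝ) - u) else 0) +
        (if 1 ≤ u - (j : ℝ) then 1 / √(u - (j : ℝ)) else 0)) := by
        refine mul_nonneg (by positivity) (add_nonneg ?_ ?_)
        · split_ifs
          · positivity
          · exact le_rfl
        · split_ifs
          · positivity
          · exact le_rfl
      linarith
    · rw [if_neg h1, zero_add]
      rw [not_lt, le_abs] at h1
      have h2 : ∀ v : ℝ, 1 ≤ v → |s₁ + κ * j / M - a| = d * v →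
          1 / √(max ε |s₁ + κ * j / M - a|) ≤ (1 / √d) * (1 / √v) := by
        intro v hv hv2
        have hsv : 0 < √v := Real.sqrt_pos.2 (by linarith)
        rw [div_mul_div_comm, one_mul, ← Real.sqrt_mul hdpos.le]
        refine one_div_le_one_div_of_le (Real.sqrt_pos.2 (by positivity)) ?_
        refine Real.sqrt_le_sqrt ?_
        rw [← hv2]
        exact le_max_right _ _
      rcases h1 with h1 | h1
      · have h3 : ¬ (1 ≤ u - (j : ℝ)) := by linarith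
        rw [if_pos h1, if_neg h3, add_zero]
        refine h2 _ h1 ?_
        rw [hdist, abs_mul, abs_of_pos hdpos, abs_of_pos (by linarith)]
      · have h1' : 1 ≤ u - (j : ℝ) := by linarith
        have h3 : ¬ (1 ≤ (j : ℝ) - u) := by linarith
        rw [if_neg h3, if_pos h1', zero_add]
        refine h2 _ h1' ?_
        rw [hdist, abs_mul, abs_of_pos hdpos, abs_of_neg (by linarith)]
        ring
  have hsum := Finset.sum_le_sum hterm
  rw [Finset.sum_add_distrib, ← Finset.mul_sum, Finset.sum_add_distrib] at hsum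
  have h1 : ∑ j ∈ Finset.range M, (if |(j : ℝ) - u| < 1 then 1 / √ε else 0) ≤ 2 * (1 / √ε) := by
    rw [← Finset.sum_filter, Finset.sum_const, nsmul_eq_mul]
    have := card_near u M
    gcongr
    exact_mod_cast this
  have h2 := sum_right u M
  have h3 := sum_left u M
  have hsd : 0 < √d := Real.sqrt_pos.2 hdpos
  have hsM : 0 < √(M : ℝ) := Real.sqrt_pos.2 hM'
  have hsκ : 0 < √κ := Real.sqrt_pos.2 hκ
  have hMM : √(M : ℝ) * √(M : ℝ) = M := Real.mul_self_sqrt hM'.le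
  have hdκ : √d = √κ / √(M : ℝ) := by rw [hd, Real.sqrt_div hκ.le]
  have h4 : ∑ j ∈ Finset.range M, 1 / √(max ε |s₁ + κ * j / M - a|) ≤
      2 * M + (1 / √d) * (4 * √M) := by
    refine hsum.trans ?_
    have h5 : (1 / √d) * (∑ j ∈ Finset.range M, (if 1 ≤ (j : ℝ) - u then 1 / √((j : ℝ) - u) else 0) +
        ∑ j ∈ Finset.range M, (if 1 ≤ u - (j : ℝ) then 1 / √(u - (j : ℝ)) else 0)) ≤
        (1 / √d) * (4 * √M) := by
      gcongr
      linarith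
    have h6 : 2 * (1 / √ε) ≤ 2 * (M : ℝ) := by linarith
    linarith
  calc (1 / (M : ℝ)) * ∑ j ∈ Finset.range M, 1 / √(max ε |s₁ + κ * j / M - a|)
      ≤ (1 / (M : ℝ)) * (2 * M + (1 / √d) * (4 * √M)) := by gcongr
    _ = 2 + 4 / √κ := by
        rw [hdκ]
        field_simp
        linear_combination (4 : ℝ) * hMM

end Pool.Agent.H720R2.Cor
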