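import Mathlib

/-!
Limits of uniformly bounded holomorphic functions on open subsets of complex normed spaces.
-/

set_option autoImplicit false

open Set Metric Filter Topology

namespace Pool.Agent.H720R2.Cor

variable {X : Type*} [NormedAddCommGroup X] [NormedSpace ℂ X]

/-- second order Taylor estimate for bounded holomorphic functions -/
theorem taylor2 {f : X → ℂ} {p : X} {R C : ℝ} (hR : 0 < R)
    (hd : DifferentiableOn ℂ f (ball p R)) (hb : ∀ z ∈ ball p R, ‖f z‖ ≤ C) {z : X}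
    (hz : z ∈ ball p R) :
    ‖f z - f p - fderiv ℂ f p (z - p)‖ ≤ 4 * C * (‖z - p‖ / R) ^ 2 := by
  have hp : p ∈ ball p R := mem_ball_self hR
  have hmaps : MapsTo f (ball p R) (closedBall (f p) (2 * C)) := by
    intro w hw
    rw [mem_closedBall, dist_eq_norm]
    have h1 := hb w hw
    have h2 := hb p hp
    have h3 := norm_sub_le (f w) (f p)
    linarith
  have hfd := Complex.norm_fderiv_le_div_of_mapsTo_ball hd hmaps hR
  have hdp : DifferentiableAt ℂ f p := hd.differentiableAt (ball_mem_nhds _ hR)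
  set k : X → ℂ := fun w => f w - f p - fderiv ℂ f p (w - p) with hk
  have hk0 : k p = 0 := by simp [hk]
  have hkd : DifferentiableOn ℂ k (ball p R) := by
    refine (hd.sub_const _).sub ?_
    exact ((fderiv ℂ f p).differentiable.comp (differentiable_id.sub_const p)).differentiableOn
  have hkm : MapsTo k (ball p R) (closedBall (k p) (4 * C)) := by
    intro w hw
    rw [hk0, mem_closedBall_zero_iff]
    have h1 := hmaps hw
    rw [mem_closedBall, dist_eq_norm] at h1
    have h2 : ‖fderiv ℂ f p (w - p)‖ ≤ 2 * C := by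
      refine ((fderiv ℂ f p).le_opNorm _).trans ?_
      have h3 : ‖w - p‖ ≤ R := by
        rw [← dist_eq_norm]
        exact (mem_ball.1 hw).le
      calc ‖fderiv ℂ f p‖ * ‖w - p‖ ≤ (2 * C / R) * R := by
            gcongr
            have : 0 ≤ ‖fderiv ℂ f p‖ := norm_nonneg _
            exact this.trans hfd
        _ = 2 * C := by field_simp
    calc ‖k w‖ ≤ ‖f w - f p‖ + ‖fderiv ℂ f p (w - p)‖ := norm_sub_le _ _
      _ ≤ 4 * C := by linarith
  have hko : (fun w => k w - k p) =o[𝓝 p] (fun w => ‖w - p‖ ^ 1) := by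
    have h1 := hdp.hasFDerivAt.isLittleO
    rw [hk0]
    simp only [sub_zero, pow_one]
    exact h1.norm_right
  have h := Complex.dist_le_mul_div_pow_of_mapsTo_ball_of_isLittleO (n := 1) hkd hkm hko hz
  rw [hk0, dist_zero_right, dist_eq_norm] at h
  exact h

/-- The ultralimit of uniformly bounded holomorphic functions is holomorphic. -/
theorem ultra_lim {B : Set X} (hB : IsOpen B) {C : ℝ} {ι : Type*} (𝒰 : Ultrafilter ι) (f : ι → X → ℂ)
    (hd : ∀ n, DifferentiableOn ℂ (f n) B) (hb : ∀ n, ∀ p ∈ B, ‖f n p‖ ≤ C) :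
    ∃ F : X → ℂ, DifferentiableOn ℂ F B ∧ (∀ p ∈ B, ‖F p‖ ≤ C) ∧
      ∀ p ∈ B, Tendsto (fun n => f n p) 𝒰 (𝓝 (F p)) := by
  obtain ⟨i0⟩ : Nonempty ι := (𝒰 : Filter ι).nonempty_of_neBot
  have hlim : ∀ (a : ι → ℂ) (K : ℝ), (∀ n, ‖a n‖ ≤ K) → ∃ v : ℂ, Tendsto a 𝒰 (𝓝 v) := by
    intro a K ha
    have hle : ((𝒰.map a : Ultrafilter ℂ) : Filter ℂ) ≤ 𝓟 (closedBall 0 K) := by
      rw [le_principal_iff, Ultrafilter.coe_map, Filter.mem_map]
      refine Filter.mem_of_superset Filter.univ_mem ?_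
      intro n _
      change a n ∈ closedBall 0 K
      rw [mem_closedBall_zero_iff]
      exact ha n
    obtain ⟨v, -, hv⟩ := (isCompact_closedBall (0 : ℂ) K).ultrafilter_le_nhds _ hle
    exact ⟨v, hv⟩
  have h1 : ∀ p, ∃ v : ℂ, p ∈ B → Tendsto (fun n => f n p) 𝒰 (𝓝 v) := by
    intro p
    by_cases hp : p ∈ B
    · obtain ⟨v, hv⟩ := hlim (fun n => f n p) C (fun n => hb n p hp)
      exact ⟨v, fun _ => hv⟩
    · exact ⟨0, fun h => absurd h hp⟩
  choose F hF using h1
  refine ⟨F, ?_, ?_, hF⟩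
  · intro p hp
    obtain ⟨R, hR, hRB⟩ := Metric.isOpen_iff.1 hB p hp
    have hC : 0 ≤ C := (norm_nonneg _).trans (hb i0 p hp)
    have hfd : ∀ n, ‖fderiv ℂ (f n) p‖ ≤ 2 * C / R := by
      intro n
      refine Complex.norm_fderiv_le_div_of_mapsTo_ball ((hd n).mono hRB) ?_ hR
      intro w hw
      rw [mem_closedBall, dist_eq_norm]
      have h1 := hb n w (hRB hw)
      have h2 := hb n p hp
      have h3 := norm_sub_le (f n w) (f n p)
      linarith
    have h2 : ∀ v : X, ∃ c : ℂ, Tendsto (fun n => fderiv ℂ (f n) p v) 𝒰 (𝓝 c) := by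
      intro v
      refine hlim _ (2 * C / R * ‖v‖) (fun n => ?_)
      exact ((fderiv ℂ (f n) p).le_opNorm v).trans (by gcongr; exact hfd n)
    choose L hL using h2
    let L₀ : X →ₗ[ℂ] ℂ :=
      { toFun := L
        map_add' := by
          intro v w
          refine tendsto_nhds_unique (hL (v + w)) ?_
          simp only [map_add]
          exact (hL v).add (hL w)
        map_smul' := by
          intro c v
          refine tendsto_nhds_unique (hL (c • v)) ?_
          simp only [map_smul, RingHom.id_apply]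
          exact (hL v).const_smul c }
    let L₁ : X →L[ℂ] ℂ := L₀.mkContinuous (2 * C / R) (fun v => by
      refine le_of_tendsto (hL v).norm (Eventually.of_forall fun n => ?_)
      exact ((fderiv ℂ (f n) p).le_opNorm v).trans (by gcongr; exact hfd n))
    have hL₁ : ∀ v, L₁ v = L v := fun v => rfl
    have hmain : ∀ v : X, ‖v‖ < R → ‖F (p + v) - F p - L₁ v‖ ≤ 4 * C / R ^ 2 * ‖v‖ ^ 2 := by
      intro v hv
      have hmem : p + v ∈ ball p R := by simpa [mem_ball, dist_eq_norm] using hv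
      have ht : Tendsto (fun n => f n (p + v) - f n p - fderiv ℂ (f n) p v) 𝒰
          (𝓝 (F (p + v) - F p - L₁ v)) := by
        rw [hL₁]
        exact ((hF (p + v) (hRB hmem)).sub (hF p hp)).sub (hL v)
      refine le_of_tendsto ht.norm (Eventually.of_forall fun n => ?_)
      have h3 := taylor2 hR ((hd n).mono hRB) (fun z hz => hb n z (hRB hz)) hmem
      rw [add_sub_cancel_left] at h3
      refine h3.trans (le_of_eq ?_)
      field_simp
    have hder : HasFDerivAt F L₁ p := by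
      rw [hasFDerivAt_iff_isLittleO_nhds_zero]
      have hO : (fun v : X => F (p + v) - F p - L₁ v) =O[𝓝 0] fun v => ‖v‖ ^ 2 := by
        refine Asymptotics.IsBigO.of_bound (4 * C / R ^ 2) ?_
        filter_upwards [ball_mem_nhds (0 : X) hR] with v hv
        rw [mem_ball_zero_iff] at hv
        rw [norm_pow, norm_norm]
        exact hmain v hv
      refine hO.trans_isLittleO ?_
      exact Asymptotics.isLittleO_norm_pow_id one_lt_two
    exact hder.differentiableAt.differentiableWithinAt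
  · intro p hp
    exact le_of_tendsto (hF p hp).norm (Eventually.of_forall fun n => hb n p hp)

/-- Limits of solutions of Bezout equations. -/
theorem bezout_lim {B : Set X} (hB : IsOpen B) {C : ℝ} {ι : Type*} (l : Filter ι) [l.NeBot]
    (F G : ι → X → ℂ) (F0 G0 : X → ℂ)
    (hF : ∀ p ∈ B, Tendsto (fun n => F n p) l (𝓝 (F0 p)))
    (hG : ∀ p ∈ B, Tendsto (fun n => G n p) l (𝓝 (G0 p)))
    (hsol : ∀ n, ∃ u w : X → ℂ, DifferentiableOn ℂ u B ∧ DifferentiableOn ℂ w B ∧
      (∀ p ∈ B, ‖u p‖ ≤ C) ∧ (∀ p ∈ B, ‖w p‖ ≤ C) ∧ ∀ p ∈ B, F n p * u p + G n p * w p = 1) :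
    ∃ u w : X → ℂ, DifferentiableOn ℂ u B ∧ DifferentiableOn ℂ w B ∧
      (∀ p ∈ B, ‖u p‖ ≤ C) ∧ (∀ p ∈ B, ‖w p‖ ≤ C) ∧ ∀ p ∈ B, F0 p * u p + G0 p * w p = 1 := by
  choose u w hu hw hub hwb huw using hsol
  set 𝒰 : Ultrafilter ι := Ultrafilter.of l with h𝒰
  have hle : (𝒰 : Filter ι) ≤ l := Ultrafilter.of_le _
  obtain ⟨u0, hu0, hub0, hut⟩ := ultra_lim hB 𝒰 u hu hub
  obtain ⟨w0, hw0, hwb0, hwt⟩ := ultra_lim hB 𝒰 w hw hwb
  refine ⟨u0, w0, hu0, hw0, hub0, hwb0, fun p hp => ?_⟩
  have h1 : Tendsto (fun n => F n p * u n p + G n p * w n p) 𝒰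
      (𝓝 (F0 p * u0 p + G0 p * w0 p)) :=
    (((hF p hp).mono_left hle).mul (hut p hp)).add (((hG p hp).mono_left hle).mul (hwt p hp))
  have h2 : (fun n => F n p * u n p + G n p * w n p) = fun _ => (1 : ℂ) := by
    funext n
    exact huw n p hp
  rw [h2] at h1
  exact (tendsto_nhds_unique h1 tendsto_const_nhds)

end Pool.Agent.H720R2.Cor
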