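import Mathlib
import Pool.Agent.HopfPinch.AnS1
import Pool.Agent.H720R2.Cor.Contour
import Pool.Agent.H720R2.Cor.Geom
import Pool.Agent.H720R2.Cor.Lim

/-!
The Bezout equation `x u + G w = 1` on the ball `|x|² + ‖y‖² < 1`.
-/

set_option autoImplicit false

open Set Metric Filter Topology Complex Real MeasureTheory

namespace Pool.Agent.H720R2.Cor

variable {E : Type} [NormedAddCommGroup E] [NormedSpace ℂ E] [FiniteDimensional ℂ E]

theorem isOpen_and (c : ℝ) {f : ℂ × E → ℝ} (hf : Continuous f) :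
    IsOpen {q : ℂ × E | q ∈ BB E 1 ∧ c < f q} :=
  (isOpen_BB 1).inter (isOpen_lt continuous_const hf)

theorem isOpen_and' (c : ℝ) {f : ℂ × E → ℝ} (hf : Continuous f) :
    IsOpen {q : ℂ × E | q ∈ BB E 1 ∧ f q < c} :=
  (isOpen_BB 1).inter (isOpen_lt hf continuous_const)

/-- data on a slightly larger ball -/
structure Dat (G : ℂ × E → ℂ) (η ε : ℝ) : Prop where
  hη : 0 < η
  hη2 : η ≤ 1 / 2
  hε : 0 < ε
  hε2 : ε ≤ η / 8
  hd : DifferentiableOn ℂ G (BB E (1 + 34 * ε ^ 2))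
  hb : ∀ p ∈ BB E (1 + 34 * ε ^ 2), ‖G p‖ ≤ 1
  hlow : ∀ p ∈ BB E (1 + 34 * ε ^ 2), ‖p.1‖ ≤ η → η ≤ ‖G p‖

variable {G : ℂ × E → ℂ} {η ε s : ℝ}

theorem Dat.pt (D : Dat G η ε) (hs1 : η / 4 ≤ s) (hs2 : s ≤ η / 2) {ζ : ℂ}
    (hζ : |‖ζ‖ - s| ≤ ε) {p : ℂ × E} (hp : p ∈ BB E 1) :
    (ζ, Yf s ζ p) ∈ BB E (1 + 34 * ε ^ 2) ∧ η ≤ ‖G (ζ, Yf s ζ p)‖ ∧
      DifferentiableAt ℂ G (ζ, Yf s ζ p) ∧ ζ - ((s ^ 2 : ℝ) : ℂ) * p.1 ≠ 0 := by
  have h1 := D.hη
  have h2 := D.hη2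
  have h3 := D.hε
  have h4 := D.hε2
  have h5 := geom (by linarith) (by linarith) h3 (by linarith) hζ hp
  have h6 := abs_le.1 hζ
  refine ⟨h5, D.hlow _ h5 ?_, (D.hd _ h5).differentiableAt ((isOpen_BB _).mem_nhds h5), ?_⟩
  · change ‖ζ‖ ≤ η
    linarith [h6.2]
  · obtain ⟨h7, h8⟩ := den_ne (by linarith) (by linarith) (by linarith) hζ hp
    exact norm_pos_iff.1 (by linarith)

theorem Dat.diffζ (D : Dat G η ε) (hs1 : η / 4 ≤ s) (hs2 : s ≤ η / 2) {ζ : ℂ}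
    (hζ : |‖ζ‖ - s| ≤ ε) {p : ℂ × E} (hp : p ∈ BB E 1) :
    DifferentiableAt ℂ (fun z => (G (z, Yf s z p))⁻¹) ζ := by
  obtain ⟨h1, h2, h3, h4⟩ := D.pt hs1 hs2 hζ hp
  have hη := D.hη
  have h5 : DifferentiableAt ℂ (fun z : ℂ => (z, Yf s z p)) ζ := by
    refine differentiableAt_id.prodMk ?_
    unfold Yf
    refine DifferentiableAt.smul_const ?_ _
    refine DifferentiableAt.fun_div ?_ ?_ h4
    · fun_prop
    · fun_prop
  have h6 : DifferentiableAt ℂ (fun z : ℂ => G (z, Yf s z p)) ζ :=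
    DifferentiableAt.comp ζ h3 h5
  refine h6.fun_inv ?_
  intro h
  rw [h, norm_zero] at h2
  linarith

theorem Dat.diffp (D : Dat G η ε) (hs1 : η / 4 ≤ s) (hs2 : s ≤ η / 2) {ζ : ℂ}
    (hζ : |‖ζ‖ - s| ≤ ε) {p : ℂ × E} (hp : p ∈ BB E 1) (hne : ‖p.1‖ ≠ ‖ζ‖) :
    DifferentiableAt ℂ (fun q : ℂ × E => (G (ζ, Yf s ζ q))⁻¹ / (ζ - q.1)) p := by
  obtain ⟨h1, h2, h3, h4⟩ := D.pt hs1 hs2 hζ hp
  have hη := D.hη
  have h5 : DifferentiableAt ℂ (fun q : ℂ × E => (ζ, Yf s ζ q)) p := by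
    refine (differentiableAt_const _).prodMk ?_
    unfold Yf
    refine DifferentiableAt.fun_smul ?_ differentiableAt_snd
    simp only [div_eq_mul_inv]
    refine DifferentiableAt.fun_mul (by fun_prop) (DifferentiableAt.fun_inv (by fun_prop) h4)
  have h6 : DifferentiableAt ℂ (fun q : ℂ × E => G (ζ, Yf s ζ q)) p :=
    DifferentiableAt.comp p h3 h5
  simp only [div_eq_mul_inv]
  refine DifferentiableAt.fun_mul (h6.fun_inv ?_) (DifferentiableAt.fun_inv (by fun_prop) ?_)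
  · intro h
    rw [h, norm_zero] at h2
    linarith
  · intro h
    rw [sub_eq_zero] at h
    rw [h] at hne
    exact hne rfl

/-- the Cauchy type average -/
noncomputable def Vc (G : ℂ × E → ℂ) (s t : ℝ) (p : ℂ × E) : ℂ :=
  circleAverage (fun ζ => (G (ζ, Yf s ζ p))⁻¹ / (ζ - p.1)) 0 t

theorem abs_norm_circle {t : ℝ} (ht : 0 < t) (θ : ℝ) : ‖circleMap 0 t θ‖ = t := by
  have := norm_circleMap_zero t θ
  rw [this, abs_of_pos ht]

theorem Dat.Vdiff_aux (D : Dat G η ε) (hs1 : η / 4 ≤ s) (hs2 : s ≤ η / 2) {t : ℝ}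
    (ht : |t - s| ≤ ε) {c : ℝ} (hc : 0 < c) :
    DifferentiableOn ℂ (Vc G s t) {p | p ∈ BB E 1 ∧ c < |‖p.1‖ - t|} := by
  have hη := D.hη
  have h1 := abs_le.1 ht
  have h4 := D.hε2
  have ht0 : 0 < t := by linarith [h1.1]
  have hζ : ∀ θ : ℝ, |‖circleMap 0 t θ‖ - s| ≤ ε := fun θ => by rw [abs_norm_circle ht0]; exact ht
  have hopen : IsOpen {p : ℂ × E | p ∈ BB E 1 ∧ c < |‖p.1‖ - t|} :=
    isOpen_and c (f := fun p => |‖p.1‖ - t|) (by fun_prop)
  have hne : ∀ p : ℂ × E, c < |‖p.1‖ - t| → ‖p.1‖ ≠ t := by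
    intro p hp h
    rw [h, sub_self, abs_zero] at hp
    linarith
  have key := Pool.Agent.HP.differentiableOn_integral (X := ℂ × E) (E := ℂ)
    (volume.restrict (Ioc (0 : ℝ) (2 * π)))
    (fun θ p => (G (circleMap 0 t θ, Yf s (circleMap 0 t θ) p))⁻¹ / (circleMap 0 t θ - p.1))
    {p | p ∈ BB E 1 ∧ c < |‖p.1‖ - t|} hopen ?_ ?_ (fun _ => 1 / (η * c)) ?_ ?_
  · have h2 := key.const_smul ((2 * π)⁻¹ : ℝ)
    refine h2.congr (fun p _ => ?_)
    rw [Vc, circleAverage, intervalIntegral.integral_of_le (by positivity)]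
    rfl
  · intro p hp
    refine Continuous.aestronglyMeasurable ?_
    rw [continuous_iff_continuousAt]
    intro θ
    have h5 : ContinuousAt (fun ζ : ℂ => (G (ζ, Yf s ζ p))⁻¹ / (ζ - p.1)) (circleMap 0 t θ) := by
      refine ContinuousAt.div (D.diffζ hs1 hs2 (hζ θ) hp.1).continuousAt (by fun_prop) ?_
      intro h
      rw [sub_eq_zero] at h
      apply hne p hp.2
      rw [← h, abs_norm_circle ht0]
    exact ContinuousAt.comp (f := fun θ : ℝ => circleMap 0 t θ) h5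
      (continuous_circleMap 0 t).continuousAt
  · intro θ p hp
    refine (D.diffp hs1 hs2 (hζ θ) hp.1 ?_).differentiableWithinAt
    rw [abs_norm_circle ht0]
    exact hne p hp.2
  · exact integrable_const _
  · intro θ p hp
    obtain ⟨-, h2, -, -⟩ := D.pt hs1 hs2 (hζ θ) hp.1
    rw [norm_div, norm_inv]
    have h5 : c ≤ ‖circleMap 0 t θ - p.1‖ := by
      have h6 := abs_norm_sub_norm_le (circleMap 0 t θ) p.1
      rw [abs_norm_circle ht0, abs_sub_comm] at h6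
      exact hp.2.le.trans h6
    rw [div_eq_mul_inv, ← mul_inv, one_div]
    refine inv_anti₀ (by positivity) ?_
    gcongr

theorem Dat.Vdiff (D : Dat G η ε) (hs1 : η / 4 ≤ s) (hs2 : s ≤ η / 2) {t : ℝ}
    (ht : |t - s| ≤ ε) {p : ℂ × E} (hp : p ∈ BB E 1) (hpt : ‖p.1‖ ≠ t) :
    DifferentiableAt ℂ (Vc G s t) p := by
  have hpos : 0 < |‖p.1‖ - t| := abs_pos.2 (sub_ne_zero.2 hpt)
  have h := D.Vdiff_aux hs1 hs2 ht (half_pos hpos)
  refine (h p ⟨hp, by linarith⟩).differentiableAt ?_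
  have hopen : IsOpen {q : ℂ × E | q ∈ BB E 1 ∧ |‖p.1‖ - t| / 2 < |‖q.1‖ - t|} :=
    isOpen_and (|‖p.1‖ - t| / 2) (f := fun q => |‖q.1‖ - t|) (by fun_prop)
  exact hopen.mem_nhds ⟨hp, by linarith⟩

theorem Dat.Vbound (D : Dat G η ε) (hs1 : η / 4 ≤ s) (hs2 : s ≤ η / 2) {t : ℝ}
    (ht : |t - s| ≤ ε) {p : ℂ × E} (hp : p ∈ BB E 1) (hpt : ‖p.1‖ ≠ t) :
    ‖Vc G s t p‖ ≤ (1 / η) * (1 / √|t ^ 2 - ‖p.1‖ ^ 2|) := by
  have hη := D.hη
  have h1 := abs_le.1 ht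
  have h4 := D.hε2
  have ht0 : 0 < t := by linarith [h1.1]
  have hint1 : CircleIntegrable (fun z : ℂ => 1 / ‖z - p.1‖) 0 t := by
    have := integrable_inv_pow ht0 hpt 1
    simpa using this
  have hint2 : CircleIntegrable (fun z : ℂ => (1 / η) • (1 / ‖z - p.1‖)) 0 t :=
    hint1.const_smul (a := 1 / η)
  have h5 : ‖Vc G s t p‖ ≤ circleAverage (fun z : ℂ => (1 / η) • (1 / ‖z - p.1‖)) 0 t := by
    refine norm_avg_le hint2 (fun z hz => ?_)
    rw [mem_sphere_zero_iff_norm, abs_of_pos ht0] at hz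
    obtain ⟨-, h2, -, -⟩ := D.pt hs1 hs2 (ζ := z) (by rw [hz]; exact ht) hp
    rw [norm_div, norm_inv, smul_eq_mul]
    have h6 : 0 ≤ ‖z - p.1‖ := norm_nonneg _
    rw [div_eq_mul_one_div]
    have h7 : (‖G (z, Yf s z p)‖)⁻¹ ≤ 1 / η := by
      rw [one_div]
      exact inv_anti₀ hη h2
    gcongr
  have h6 : circleAverage (fun z : ℂ => (1 / η) • (1 / ‖z - p.1‖)) 0 t =
    (1 / η) • circleAverage (fun z : ℂ => 1 / ‖z - p.1‖) 0 t := circleAverage_fun_smul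
  rw [h6, smul_eq_mul] at h5
  refine h5.trans ?_
  have h7 := avg_inv_le ht0 hpt
  gcongr

theorem Yf_self {p : ℂ × E} (hs : 0 < s) (hs4 : s < 1) (hp : p.1 ≠ 0) : Yf s p.1 p = p.2 := by
  rw [Yf]
  have h1 : (((1 - s ^ 2 : ℝ) : ℂ) * p.1 / (p.1 - ((s ^ 2 : ℝ) : ℂ) * p.1)) = 1 := by
    have h2 : p.1 - ((s ^ 2 : ℝ) : ℂ) * p.1 = ((1 - s ^ 2 : ℝ) : ℂ) * p.1 := by
      push_cast
      ring
    rw [h2, div_self]
    refine mul_ne_zero ?_ hp
    have : (1 - s ^ 2 : ℝ) ≠ 0 := by nlinarith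
    exact_mod_cast this
  rw [h1, one_smul]

theorem Dat.Vjump (D : Dat G η ε) (hs1 : η / 4 ≤ s) (hs2 : s ≤ η / 2)
    {p : ℂ × E} (hp : p ∈ BB E 1) (h1 : s - ε < ‖p.1‖) (h2 : ‖p.1‖ < s + ε) :
    Vc G s (s + ε) p - Vc G s (s - ε) p = (G p)⁻¹ / p.1 := by
  have hη := D.hη
  have hη2 := D.hη2
  have h4 := D.hε2
  have hε := D.hε
  have hp0 : p.1 ≠ 0 := by
    intro h
    rw [h, norm_zero] at h1
    linarith
  have h := jump (f := fun ζ => (G (ζ, Yf s ζ p))⁻¹) (by linarith : 0 < s - ε) h1 h2 ?_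
  · rw [Vc, Vc, h]
    rw [Yf_self (by linarith) (by linarith) hp0]
  · intro z hz1 hz2
    exact D.diffζ hs1 hs2 (abs_le.2 ⟨by linarith, by linarith⟩) hp

/-- solutions with logarithmic type singularity near `|x| = s` -/
theorem Dat.sol_s (D : Dat G η ε) (hs1 : η / 4 ≤ s) (hs2 : s ≤ η / 2) :
    ∃ u w : ℂ × E → ℂ, DifferentiableOn ℂ u (BB E 1) ∧ DifferentiableOn ℂ w (BB E 1) ∧
      (∀ p ∈ BB E 1, p.1 * u p + G p * w p = 1) ∧
      (∀ p ∈ BB E 1, ‖u p‖ ≤ 4 / η + 1 / η * (2 / √η) * (1 / √(max ε |s - ‖p.1‖|))) ∧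
      (∀ p ∈ BB E 1, ‖w p‖ ≤ 4 / η + 1 / η * (2 / √η) * (1 / √(max ε |s - ‖p.1‖|))) := by
  have hη := D.hη
  have hη2 := D.hη2
  have hε2 := D.hε2
  have hε := D.hε
  have hs0 : 0 < s := by linarith
  have hsub : BB E 1 ⊆ BB E (1 + 34 * ε ^ 2) := by
    intro p hp
    have h1 : ‖p.1‖ ^ 2 + ‖p.2‖ ^ 2 < 1 := hp
    change ‖p.1‖ ^ 2 + ‖p.2‖ ^ 2 < 1 + 34 * ε ^ 2
    have : 0 < ε ^ 2 := by positivity
    linarith
  have hGd : ∀ p ∈ BB E 1, DifferentiableAt ℂ G p := fun p hp =>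
    (D.hd p (hsub hp)).differentiableAt ((isOpen_BB _).mem_nhds (hsub hp))
  have hGlow : ∀ p ∈ BB E 1, ‖p.1‖ < s + ε → η ≤ ‖G p‖ := fun p hp h =>
    D.hlow p (hsub hp) (by linarith)
  have hG0 : ∀ p ∈ BB E 1, ‖p.1‖ < s + ε → G p ≠ 0 := by
    intro p hp h h0
    have := hGlow p hp h
    rw [h0, norm_zero] at this
    linarith
  have htp : |s + ε - s| ≤ ε := by rw [add_sub_cancel_left, abs_of_pos hε]
  have htm : |s - ε - s| ≤ ε := by
    have : s - ε - s = -ε := by ring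
    rw [this, abs_neg, abs_of_pos hε]
  set Vp := Vc G s (s + ε) with hVp
  set Vm := Vc G s (s - ε) with hVm
  -- the two local formulas
  set ui : ℂ × E → ℂ := fun p => G p * Vp p with hui
  set wi : ℂ × E → ℂ := fun p => (G p)⁻¹ - p.1 * Vp p with hwi
  set uo : ℂ × E → ℂ := fun p => (p.1)⁻¹ + G p * Vm p with huo
  set wo : ℂ × E → ℂ := fun p => -(p.1 * Vm p) with hwo
  have hagree : ∀ p ∈ BB E 1, s - ε < ‖p.1‖ → ‖p.1‖ < s + ε → ui p = uo p ∧ wi p = wo p := by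
    intro p hp h1 h2
    have hj := D.Vjump hs1 hs2 hp h1 h2
    have hp0 : p.1 ≠ 0 := by
      intro h
      rw [h, norm_zero] at h1
      linarith
    have hg0 := hG0 p hp h2
    have hj' : Vp p = Vm p + (G p)⁻¹ / p.1 := by
      rw [← hj]
      ring
    constructor
    · simp only [hui, huo]
      rw [hj']
      field_simp
      ring
    · simp only [hwi, hwo]
      rw [hj']
      field_simp
      ring
  set u : ℂ × E → ℂ := fun p => if ‖p.1‖ < s then ui p else uo p with hu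
  set w : ℂ × E → ℂ := fun p => if ‖p.1‖ < s then wi p else wo p with hw
  have hin : ∀ p ∈ BB E 1, ‖p.1‖ < s + ε → u p = ui p ∧ w p = wi p := by
    intro p hp h
    by_cases h1 : ‖p.1‖ < s
    · simp only [hu, hw, if_pos h1, and_self]
    · simp only [hu, hw, if_neg h1]
      obtain ⟨h2, h3⟩ := hagree p hp (by linarith) h
      exact ⟨h2.symm, h3.symm⟩
  have hout : ∀ p ∈ BB E 1, s - ε < ‖p.1‖ → u p = uo p ∧ w p = wo p := by
    intro p hp h
    by_cases h1 : ‖p.1‖ < s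
    · simp only [hu, hw, if_pos h1]
      exact hagree p hp h (by linarith)
    · simp only [hu, hw, if_neg h1, and_self]
  have hOi : ∀ p ∈ BB E 1, ‖p.1‖ < s + ε → ∀ᶠ q in 𝓝 p, q ∈ BB E 1 ∧ ‖q.1‖ < s + ε := by
    intro p hp h
    have hopen : IsOpen {q : ℂ × E | q ∈ BB E 1 ∧ ‖q.1‖ < s + ε} :=
      isOpen_and' (s + ε) (f := fun q => ‖q.1‖) (by fun_prop)
    exact hopen.mem_nhds ⟨hp, h⟩
  have hOo : ∀ p ∈ BB E 1, s - ε < ‖p.1‖ → ∀ᶠ q in 𝓝 p, q ∈ BB E 1 ∧ s - ε < ‖q.1‖ := by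
    intro p hp h
    have hopen : IsOpen {q : ℂ × E | q ∈ BB E 1 ∧ s - ε < ‖q.1‖} :=
      isOpen_and (s - ε) (f := fun q => ‖q.1‖) (by fun_prop)
    exact hopen.mem_nhds ⟨hp, h⟩
  have hfst : ∀ p : ℂ × E, DifferentiableAt ℂ (fun q : ℂ × E => q.1) p := fun p =>
    differentiableAt_fst
  refine ⟨u, w, ?_, ?_, ?_, ?_, ?_⟩
  · intro p hp
    refine DifferentiableAt.differentiableWithinAt ?_
    by_cases h1 : ‖p.1‖ < s
    · have hV := D.Vdiff hs1 hs2 htp hp (by linarith : ‖p.1‖ < s + ε).ne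
      have hd : DifferentiableAt ℂ ui p := (hGd p hp).fun_mul hV
      refine hd.congr_of_eventuallyEq ?_
      filter_upwards [hOi p hp (by linarith)] with q hq
      exact (hin q hq.1 hq.2).1
    · have h1' : s - ε < ‖p.1‖ := by linarith
      have hV := D.Vdiff hs1 hs2 htm hp h1'.ne'
      have hp0 : p.1 ≠ 0 := by
        intro h
        rw [h, norm_zero] at h1'
        linarith
      have hd : DifferentiableAt ℂ uo p :=
        ((hfst p).fun_inv hp0).fun_add ((hGd p hp).fun_mul hV)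
      refine hd.congr_of_eventuallyEq ?_
      filter_upwards [hOo p hp h1'] with q hq
      exact (hout q hq.1 hq.2).1
  · intro p hp
    refine DifferentiableAt.differentiableWithinAt ?_
    by_cases h1 : ‖p.1‖ < s
    · have hV := D.Vdiff hs1 hs2 htp hp (by linarith : ‖p.1‖ < s + ε).ne
      have hd : DifferentiableAt ℂ wi p :=
        ((hGd p hp).fun_inv (hG0 p hp (by linarith))).fun_sub ((hfst p).fun_mul hV)
      refine hd.congr_of_eventuallyEq ?_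
      filter_upwards [hOi p hp (by linarith)] with q hq
      exact (hin q hq.1 hq.2).2
    · have h1' : s - ε < ‖p.1‖ := by linarith
      have hV := D.Vdiff hs1 hs2 htm hp h1'.ne'
      have hd : DifferentiableAt ℂ wo p := ((hfst p).fun_mul hV).fun_neg
      refine hd.congr_of_eventuallyEq ?_
      filter_upwards [hOo p hp h1'] with q hq
      exact (hout q hq.1 hq.2).2
  · intro p hp
    by_cases h1 : ‖p.1‖ < s
    · have hg0 := hG0 p hp (by linarith)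
      simp only [hu, hw, if_pos h1, hui, hwi]
      field_simp
      ring
    · have hp0 : p.1 ≠ 0 := by
        intro h
        rw [h, norm_zero] at h1
        exact h1 hs0
      simp only [hu, hw, if_neg h1, huo, hwo]
      field_simp
      ring
  all_goals
    intro p hp
    have hm0 : 0 < max ε |s - ‖p.1‖| := lt_of_lt_of_le hε (le_max_left _ _)
    have hx0 : 0 ≤ ‖p.1‖ := norm_nonneg _
    have hx1 : ‖p.1‖ < 1 := fst_lt_one hp
    have hGp : ‖G p‖ ≤ 1 := D.hb p (hsub hp)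
    have h4η : 0 < 4 / η := by positivity
    -- bound for `V`
    have hV : ∀ t : ℝ, |t - s| ≤ ε → ‖p.1‖ ≠ t →
        (η / 4) * max ε |s - ‖p.1‖| ≤ |t ^ 2 - ‖p.1‖ ^ 2| →
        ‖Vc G s t p‖ ≤ 1 / η * (2 / √η) * (1 / √(max ε |s - ‖p.1‖|)) := by
      intro t ht hpt hle
      refine (D.Vbound hs1 hs2 ht hp hpt).trans ?_
      rw [mul_assoc]
      refine mul_le_mul_of_nonneg_left ?_ (by positivity)
      have h5 : √((η / 4) * max ε |s - ‖p.1‖|) ≤ √|t ^ 2 - ‖p.1‖ ^ 2| := Real.sqrt_le_sqrt hle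
      have h6 : √((η / 4) * max ε |s - ‖p.1‖|) = √η / 2 * √(max ε |s - ‖p.1‖|) := by
        rw [Real.sqrt_mul (by positivity), Real.sqrt_div hη.le]
        have : √(4 : ℝ) = 2 := by
          rw [show (4 : ℝ) = 2 ^ 2 by norm_num]
          exact Real.sqrt_sq (by norm_num)
        rw [this]
      have h7 : 0 < √η := Real.sqrt_pos.2 hη
      have h8 : 0 < √(max ε |s - ‖p.1‖|) := Real.sqrt_pos.2 hm0
      calc 1 / √|t ^ 2 - ‖p.1‖ ^ 2| ≤ 1 / (√η / 2 * √(max ε |s - ‖p.1‖|)) := by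
            refine one_div_le_one_div_of_le (by positivity) ?_
            rw [← h6]
            exact h5
        _ = 2 / √η * (1 / √(max ε |s - ‖p.1‖|)) := by
            field_simp
    by_cases h1 : ‖p.1‖ < s
    · have hVp' := hV (s + ε) htp (by linarith : ‖p.1‖ < s + ε).ne (by
        have h5 : |(s + ε) ^ 2 - ‖p.1‖ ^ 2| = (s + ε - ‖p.1‖) * (s + ε + ‖p.1‖) := by
          have h51 : (s + ε) ^ 2 - ‖p.1‖ ^ 2 = (s + ε - ‖p.1‖) * (s + ε + ‖p.1‖) := by ring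
          rw [h51]
          exact abs_of_pos (mul_pos (by linarith) (by linarith))
        rw [h5]
        have h6 : max ε |s - ‖p.1‖| ≤ s + ε - ‖p.1‖ := by
          rw [abs_of_pos (by linarith)]
          exact max_le (by linarith) (by linarith)
        calc η / 4 * max ε |s - ‖p.1‖| ≤ (s + ε + ‖p.1‖) * (s + ε - ‖p.1‖) := by
              gcongr
              linarith
          _ = _ := by ring)
      first
      | (have e1 : ‖u p‖ ≤ ‖Vc G s (s + ε) p‖ := by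
          simp only [hu, if_pos h1, hui, norm_mul]
          exact mul_le_of_le_one_left (norm_nonneg _) hGp
         have : 1 / η * (2 / √η) * (1 / √(max ε |s - ‖p.1‖|)) ≤
            4 / η + 1 / η * (2 / √η) * (1 / √(max ε |s - ‖p.1‖|)) := by linarith
         exact (e1.trans hVp').trans this)
      | (have e1 : ‖w p‖ ≤ 1 / η + ‖Vc G s (s + ε) p‖ := by
          simp only [hw, if_pos h1, hwi]
          refine (norm_sub_le _ _).trans ?_
          have e2 : ‖(G p)⁻¹‖ ≤ 1 / η := by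
            rw [norm_inv, one_div]
            exact inv_anti₀ hη (hGlow p hp (by linarith))
          have e3 : ‖p.1 * Vp p‖ ≤ ‖Vc G s (s + ε) p‖ := by
            rw [norm_mul]
            exact mul_le_of_le_one_left (norm_nonneg _) hx1.le
          linarith
         have e4 : 1 / η ≤ 4 / η := by gcongr; norm_num
         linarith)
    · rw [not_lt] at h1
      have hVm' := hV (s - ε) htm (by linarith : s - ε < ‖p.1‖).ne' (by
        have h5 : |(s - ε) ^ 2 - ‖p.1‖ ^ 2| = (‖p.1‖ - (s - ε)) * (s - ε + ‖p.1‖) := by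
          have h51 : (s - ε) ^ 2 - ‖p.1‖ ^ 2 = -((‖p.1‖ - (s - ε)) * (s - ε + ‖p.1‖)) := by ring
          rw [h51, abs_neg]
          exact abs_of_pos (mul_pos (by linarith) (by linarith))
        rw [h5]
        have h6 : max ε |s - ‖p.1‖| ≤ ‖p.1‖ - (s - ε) := by
          rw [abs_of_nonpos (by linarith)]
          exact max_le (by linarith) (by linarith)
        calc η / 4 * max ε |s - ‖p.1‖| ≤ (s - ε + ‖p.1‖) * (‖p.1‖ - (s - ε)) :=
              mul_le_mul (by linarith) h6 hm0.le (by linarith)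
          _ = _ := by ring)
      first
      | (have e1 : ‖u p‖ ≤ 4 / η + ‖Vc G s (s - ε) p‖ := by
          simp only [hu, if_neg (not_lt.2 h1), huo]
          refine (norm_add_le _ _).trans ?_
          have e2 : ‖(p.1)⁻¹‖ ≤ 4 / η := by
            rw [norm_inv]
            have : η / 4 ≤ ‖p.1‖ := by linarith
            calc ‖p.1‖⁻¹ ≤ (η / 4)⁻¹ := inv_anti₀ (by positivity) this
              _ = 4 / η := by rw [inv_div]
          have e3 : ‖G p * Vm p‖ ≤ ‖Vc G s (s - ε) p‖ := by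
            rw [norm_mul]
            exact mul_le_of_le_one_left (norm_nonneg _) hGp
          linarith
         linarith)
      | (have e1 : ‖w p‖ ≤ ‖Vc G s (s - ε) p‖ := by
          simp only [hw, if_neg (not_lt.2 h1), hwo, norm_neg, norm_mul]
          exact mul_le_of_le_one_left (norm_nonneg _) hx1.le
         linarith)

/-- the bound for one slice -/
noncomputable def KK (η : ℝ) : ℝ := 4 / η + 1 / η * (2 / √η) * (2 + 4 / √(η / 4))

theorem Dat.sol (D : Dat G η ε) :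
    ∃ u w : ℂ × E → ℂ, DifferentiableOn ℂ u (BB E 1) ∧ DifferentiableOn ℂ w (BB E 1) ∧
      (∀ p ∈ BB E 1, ‖u p‖ ≤ KK η) ∧ (∀ p ∈ BB E 1, ‖w p‖ ≤ KK η) ∧
      (∀ p ∈ BB E 1, p.1 * u p + G p * w p = 1) := by
  have hη := D.hη
  have hε := D.hε
  obtain ⟨M, hM⟩ := exists_nat_gt (1 / √ε)
  have hM0 : (0 : ℝ) < M := lt_trans (by positivity) hM
  have hM0' : 0 < M := by exact_mod_cast hM0
  have hs : ∀ j : ℕ, ∃ u w : ℂ × E → ℂ, j < M → (DifferentiableOn ℂ u (BB E 1) ∧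
      DifferentiableOn ℂ w (BB E 1) ∧
      (∀ p ∈ BB E 1, p.1 * u p + G p * w p = 1) ∧
      (∀ p ∈ BB E 1, ‖u p‖ ≤ 4 / η + 1 / η * (2 / √η) *
        (1 / √(max ε |η / 4 + η / 4 * j / M - ‖p.1‖|))) ∧
      (∀ p ∈ BB E 1, ‖w p‖ ≤ 4 / η + 1 / η * (2 / √η) *
        (1 / √(max ε |η / 4 + η / 4 * j / M - ‖p.1‖|)))) := by
    intro j
    by_cases hj : j < M
    · have hj' : (j : ℝ) < M := by exact_mod_cast hj
      have h1 : 0 ≤ η / 4 * j / M := by positivity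
      have h2 : η / 4 * j / M ≤ η / 4 := by
        rw [div_le_iff₀ hM0]
        gcongr
      obtain ⟨u, w, h⟩ := D.sol_s (s := η / 4 + η / 4 * j / M) (by linarith) (by linarith)
      exact ⟨u, w, fun _ => h⟩
    · exact ⟨0, 0, fun h => absurd h hj⟩
  choose u w huw using hs
  have hsum : ∀ (f : ℕ → ℂ × E → ℂ), (∀ j < M, DifferentiableOn ℂ (f j) (BB E 1)) →
      (∀ j < M, ∀ p ∈ BB E 1, ‖f j p‖ ≤ 4 / η + 1 / η * (2 / √η) *
        (1 / √(max ε |η / 4 + η / 4 * j / M - ‖p.1‖|))) →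
      DifferentiableOn ℂ (fun p => ((1 / (M : ℝ) : ℝ) : ℂ) * ∑ j ∈ Finset.range M, f j p) (BB E 1) ∧
      ∀ p ∈ BB E 1, ‖((1 / (M : ℝ) : ℝ) : ℂ) * ∑ j ∈ Finset.range M, f j p‖ ≤ KK η := by
    intro f hf1 hf2
    constructor
    · refine DifferentiableOn.const_mul ?_ _
      exact DifferentiableOn.fun_sum (fun j hj => hf1 j (Finset.mem_range.1 hj))
    · intro p hp
      rw [norm_mul, Complex.norm_real, Real.norm_of_nonneg (by positivity)]
      have h1 : ‖∑ j ∈ Finset.range M, f j p‖ ≤ ∑ j ∈ Finset.range M, (4 / η + 1 / η * (2 / √η) *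
          (1 / √(max ε |η / 4 + η / 4 * j / M - ‖p.1‖|))) :=
        norm_sum_le_of_le _ (fun j hj => hf2 j (Finset.mem_range.1 hj) p hp)
      rw [Finset.sum_add_distrib, Finset.sum_const, Finset.card_range, nsmul_eq_mul,
        ← Finset.mul_sum] at h1
      have h2 := sum_bound (s₁ := η / 4) (κ := η / 4) (ε := ε) (by positivity) hε ‖p.1‖ hM0' hM.le
      set S := ∑ j ∈ Finset.range M, 1 / √(max ε |η / 4 + η / 4 * j / M - ‖p.1‖|) with hS
      calc 1 / (M : ℝ) * ‖∑ j ∈ Finset.range M, f j p‖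
          ≤ 1 / (M : ℝ) * (M * (4 / η) + 1 / η * (2 / √η) * S) := by gcongr
        _ = 4 / η + 1 / η * (2 / √η) * (1 / (M : ℝ) * S) := by
            field_simp
        _ ≤ 4 / η + 1 / η * (2 / √η) * (2 + 4 / √(η / 4)) := by gcongr
        _ = KK η := rfl
  obtain ⟨hu1, hu2⟩ := hsum u (fun j hj => (huw j hj).1) (fun j hj => (huw j hj).2.2.2.1)
  obtain ⟨hw1, hw2⟩ := hsum w (fun j hj => (huw j hj).2.1) (fun j hj => (huw j hj).2.2.2.2)
  refine ⟨_, _, hu1, hw1, hu2, hw2, fun p hp => ?_⟩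
  have h1 : p.1 * (((1 / (M : ℝ) : ℝ) : ℂ) * ∑ j ∈ Finset.range M, u j p) +
      G p * (((1 / (M : ℝ) : ℝ) : ℂ) * ∑ j ∈ Finset.range M, w j p) =
      ((1 / (M : ℝ) : ℝ) : ℂ) * ∑ j ∈ Finset.range M, (p.1 * u j p + G p * w j p) := by
    rw [Finset.sum_add_distrib, ← Finset.mul_sum, ← Finset.mul_sum]
    ring
  have h2 : ∑ j ∈ Finset.range M, (p.1 * u j p + G p * w j p) = (M : ℂ) := by
    rw [Finset.sum_congr rfl (fun j hj => (huw j (Finset.mem_range.1 hj)).2.2.1 p hp),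
      Finset.sum_const, Finset.card_range, nsmul_eq_mul, mul_one]
  rw [h1, h2]
  push_cast
  have : (M : ℂ) ≠ 0 := by exact_mod_cast hM0'.ne'
  field_simp

/-- **One slice through the centre.** -/
theorem slice0 {δ : ℝ} (hδ : 0 < δ) (hδ1 : δ ≤ 1) {G : ℂ × E → ℂ}
    (hd : DifferentiableOn ℂ G (BB E 1)) (hb : ∀ p ∈ BB E 1, ‖G p‖ ≤ 1)
    (hc : ∀ p ∈ BB E 1, δ ≤ ‖p.1‖ + ‖G p‖) :
    ∃ u w : ℂ × E → ℂ, DifferentiableOn ℂ u (BB E 1) ∧ DifferentiableOn ℂ w (BB E 1) ∧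
      (∀ p ∈ BB E 1, ‖u p‖ ≤ KK (δ / 2)) ∧ (∀ p ∈ BB E 1, ‖w p‖ ≤ KK (δ / 2)) ∧
      (∀ p ∈ BB E 1, p.1 * u p + G p * w p = 1) := by
  set η := δ / 2 with hη
  set ε : ℕ → ℝ := fun n => η / (8 * (n + 1)) with hε
  have hεpos : ∀ n, 0 < ε n := fun n => by
    simp only [hε]
    positivity
  set r : ℕ → ℝ := fun n => 1 / √(1 + 34 * (ε n) ^ 2) with hr
  have hρ : ∀ n, 1 < 1 + 34 * (ε n) ^ 2 := fun n => by
    have := hεpos n
    have : 0 < (ε n) ^ 2 := by positivity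
    linarith
  have hrpos : ∀ n, 0 < r n := fun n => by
    have := hρ n
    simp only [hr]
    positivity
  have hr1 : ∀ n, r n ≤ 1 := fun n => by
    simp only [hr]
    rw [div_le_one (Real.sqrt_pos.2 (by linarith [hρ n]))]
    rw [Real.one_le_sqrt]
    exact (hρ n).le
  have hrsq : ∀ n, (r n) ^ 2 * (1 + 34 * (ε n) ^ 2) = 1 := fun n => by
    have h1 := hρ n
    simp only [hr]
    rw [div_pow, Real.sq_sqrt (by linarith)]
    field_simp
  have hεlim : Tendsto ε atTop (𝓝 0) := by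
    have h1 : Tendsto (fun n : ℕ => (η / 8) * (1 / ((n : ℝ) + 1))) atTop (𝓝 ((η / 8) * 0)) :=
      tendsto_one_div_add_atTop_nhds_zero_nat.const_mul _
    rw [mul_zero] at h1
    refine h1.congr (fun n => ?_)
    simp only [hε]
    field_simp
  have hrlim : Tendsto r atTop (𝓝 1) := by
    have h1 : Tendsto (fun n => 1 / √(1 + 34 * (ε n) ^ 2)) atTop (𝓝 (1 / √(1 + 34 * (0 : ℝ) ^ 2))) := by
      refine Tendsto.div tendsto_const_nhds ?_ ?_
      · refine (Real.continuous_sqrt.tendsto _).comp ?_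
        exact ((hεlim.pow 2).const_mul 34).const_add 1
      · simp
    have h2 : 1 / √(1 + 34 * (0 : ℝ) ^ 2) = 1 := by simp
    rw [h2] at h1
    exact h1
  have hmem : ∀ n, ∀ p ∈ BB E (1 + 34 * (ε n) ^ 2), ((r n : ℝ) : ℂ) • p ∈ BB E 1 := by
    intro n p hp
    have hp' : ‖p.1‖ ^ 2 + ‖p.2‖ ^ 2 < 1 + 34 * (ε n) ^ 2 := hp
    change ‖((r n : ℝ) : ℂ) • p.1‖ ^ 2 + ‖((r n : ℝ) : ℂ) • p.2‖ ^ 2 < 1
    rw [norm_smul, norm_smul, Complex.norm_real, Real.norm_of_nonneg (hrpos n).le]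
    calc (r n * ‖p.1‖) ^ 2 + (r n * ‖p.2‖) ^ 2 = (r n) ^ 2 * (‖p.1‖ ^ 2 + ‖p.2‖ ^ 2) := by ring
      _ < (r n) ^ 2 * (1 + 34 * (ε n) ^ 2) := by
          have := hrpos n
          gcongr
      _ = 1 := hrsq n
  have hD : ∀ n, Dat (fun p => G (((r n : ℝ) : ℂ) • p)) η (ε n) := by
    intro n
    refine ⟨by positivity, by linarith, hεpos n, ?_, ?_, ?_, ?_⟩
    · simp only [hε]
      have : (0 : ℝ) ≤ n := Nat.cast_nonneg n
      refine div_le_div_of_nonneg_left (by positivity) (by positivity) (by linarith)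
    · have h1 : DifferentiableOn ℂ (fun p : ℂ × E => ((r n : ℝ) : ℂ) • p)
          (BB E (1 + 34 * (ε n) ^ 2)) := by fun_prop
      exact hd.comp h1 (fun p hp => hmem n p hp)
    · intro p hp
      exact hb _ (hmem n p hp)
    · intro p hp hp1
      have h1 := hc _ (hmem n p hp)
      have h2 : ‖(((r n : ℝ) : ℂ) • p).1‖ ≤ η := by
        change ‖((r n : ℝ) : ℂ) • p.1‖ ≤ η
        rw [norm_smul, Complex.norm_real, Real.norm_of_nonneg (hrpos n).le]
        calc r n * ‖p.1‖ ≤ 1 * ‖p.1‖ := by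
              gcongr
              exact hr1 n
          _ ≤ η := by linarith
      linarith
  refine bezout_lim (isOpen_BB 1) atTop (fun _ p => p.1) (fun n p => G (((r n : ℝ) : ℂ) • p))
    (fun p => p.1) G (fun p _ => tendsto_const_nhds) ?_ ?_
  · intro p hp
    have h1 : ContinuousAt G p := (hd p hp).differentiableAt ((isOpen_BB 1).mem_nhds hp) |>.continuousAt
    have h2 : Tendsto (fun n => ((r n : ℝ) : ℂ) • p) atTop (𝓝 p) := by
      have h3 : Tendsto (fun n => ((r n : ℝ) : ℂ)) atTop (𝓝 (1 : ℂ)) := by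
        have := (continuous_ofReal.tendsto 1).comp hrlim
        rw [ofReal_one] at this
        exact this
      have h4 := h3.smul_const p
      rwa [one_smul] at h4
    exact h1.tendsto.comp h2
  · intro n
    obtain ⟨u, w, h1, h2, h3, h4, h5⟩ := (hD n).sol
    exact ⟨u, w, h1, h2, h3, h4, h5⟩

/-! ### slices through other points -/

/-- the automorphism of the ball moving `(a, 0)` to the centre -/
noncomputable def Ta (a : ℂ) (p : ℂ × E) : ℂ × E :=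
  ((p.1 - a) / (1 - starRingEnd ℂ a * p.1),
    (((√(1 - ‖a‖ ^ 2) : ℝ) : ℂ) / (1 - starRingEnd ℂ a * p.1)) • p.2)

theorem den_ne' {a x : ℂ} (ha : ‖a‖ < 1) (hx : ‖x‖ < 1) : 1 - starRingEnd ℂ a * x ≠ 0 := by
  intro h
  have h1 : starRingEnd ℂ a * x = 1 := by linear_combination -h
  have h2 : ‖starRingEnd ℂ a * x‖ = 1 := by rw [h1, norm_one]
  rw [norm_mul, RCLike.norm_conj] at h2
  nlinarith [norm_nonneg a, norm_nonneg x]

theorem normSq_ident (a x : ℂ) :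
    ‖1 - starRingEnd ℂ a * x‖ ^ 2 - ‖x - a‖ ^ 2 = (1 - ‖a‖ ^ 2) * (1 - ‖x‖ ^ 2) := by
  rw [← Complex.normSq_eq_norm_sq, ← Complex.normSq_eq_norm_sq, ← Complex.normSq_eq_norm_sq,
    ← Complex.normSq_eq_norm_sq]
  simp only [Complex.normSq_apply, Complex.sub_re, Complex.sub_im, Complex.mul_re, Complex.mul_im,
    Complex.conj_re, Complex.conj_im, Complex.one_re, Complex.one_im]
  ring

theorem Ta_mem {a : ℂ} (ha : ‖a‖ < 1) {p : ℂ × E} (hp : p ∈ BB E 1) : Ta a p ∈ BB E 1 := by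
  have hx := fst_lt_one hp
  have h0 := den_ne' ha hx
  have hp' : ‖p.1‖ ^ 2 + ‖p.2‖ ^ 2 < 1 := hp
  have ha0 := norm_nonneg a
  have ha2 : 0 < 1 - ‖a‖ ^ 2 := by nlinarith
  have hn : 0 < ‖1 - starRingEnd ℂ a * p.1‖ := norm_pos_iff.2 h0
  change ‖(p.1 - a) / (1 - starRingEnd ℂ a * p.1)‖ ^ 2 +
    ‖(((√(1 - ‖a‖ ^ 2) : ℝ) : ℂ) / (1 - starRingEnd ℂ a * p.1)) • p.2‖ ^ 2 < 1
  rw [norm_smul, norm_div, norm_div, Complex.norm_real, Real.norm_of_nonneg (Real.sqrt_nonneg _),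
    div_pow, mul_pow, div_pow, Real.sq_sqrt ha2.le]
  have hid := normSq_ident a p.1
  rw [div_mul_eq_mul_div, ← add_div, div_lt_one (by positivity)]
  nlinarith

theorem Ta_diff {a : ℂ} (ha : ‖a‖ < 1) : DifferentiableOn ℂ (Ta (E := E) a) (BB E 1) := by
  intro p hp
  have h0 := den_ne' ha (fst_lt_one hp)
  refine DifferentiableAt.differentiableWithinAt ?_
  have h1 : DifferentiableAt ℂ (fun q : ℂ × E => (1 - starRingEnd ℂ a * q.1)⁻¹) p :=
    DifferentiableAt.fun_inv (by fun_prop) h0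
  unfold Ta
  simp only [div_eq_mul_inv]
  refine DifferentiableAt.prodMk ?_ ?_
  · exact DifferentiableAt.fun_mul (by fun_prop) h1
  · exact DifferentiableAt.fun_smul (h1.const_mul _) differentiableAt_snd

theorem Ta_neg_Ta {a : ℂ} (ha : ‖a‖ < 1) {p : ℂ × E} (hp : p ∈ BB E 1) : Ta (-a) (Ta a p) = p := by
  have hx := fst_lt_one hp
  have h0 := den_ne' ha hx
  have ha0 := norm_nonneg a
  have ha2 : 0 < 1 - ‖a‖ ^ 2 := by nlinarith
  have haa : starRingEnd ℂ a * a = ((‖a‖ ^ 2 : ℝ) : ℂ) := by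
    rw [mul_comm, Complex.mul_conj, Complex.normSq_eq_norm_sq]
  have h1 : (1 : ℂ) - starRingEnd ℂ a * a ≠ 0 := by
    rw [haa]
    have : (1 - ‖a‖ ^ 2 : ℝ) ≠ 0 := ha2.ne'
    exact_mod_cast this
  have hden : 1 - starRingEnd ℂ (-a) * ((p.1 - a) / (1 - starRingEnd ℂ a * p.1)) =
      (1 - starRingEnd ℂ a * a) / (1 - starRingEnd ℂ a * p.1) := by
    rw [map_neg]
    field_simp
    ring
  have hs : ((√(1 - ‖a‖ ^ 2) : ℝ) : ℂ) * ((√(1 - ‖a‖ ^ 2) : ℝ) : ℂ) =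
      1 - starRingEnd ℂ a * a := by
    rw [haa, ← Complex.ofReal_mul, Real.mul_self_sqrt ha2.le]
    push_cast
    ring
  refine Prod.ext ?_ ?_
  · change ((p.1 - a) / (1 - starRingEnd ℂ a * p.1) - -a) /
      (1 - starRingEnd ℂ (-a) * ((p.1 - a) / (1 - starRingEnd ℂ a * p.1))) = p.1
    have h4 : (p.1 - a) / (1 - starRingEnd ℂ a * p.1) - -a =
        p.1 * (1 - starRingEnd ℂ a * a) / (1 - starRingEnd ℂ a * p.1) := by
      rw [sub_neg_eq_add, div_add' _ _ _ h0]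
      congr 1
      ring
    rw [hden, h4, div_div_div_cancel_right₀ h0, mul_div_assoc, div_self h1, mul_one]
  · change (((√(1 - ‖-a‖ ^ 2) : ℝ) : ℂ) /
      (1 - starRingEnd ℂ (-a) * ((p.1 - a) / (1 - starRingEnd ℂ a * p.1)))) •
      ((((√(1 - ‖a‖ ^ 2) : ℝ) : ℂ) / (1 - starRingEnd ℂ a * p.1)) • p.2) = p.2
    rw [hden, norm_neg, smul_smul]
    have h3 : ((√(1 - ‖a‖ ^ 2) : ℝ) : ℂ) / ((1 - starRingEnd ℂ a * a) /
        (1 - starRingEnd ℂ a * p.1)) * (((√(1 - ‖a‖ ^ 2) : ℝ) : ℂ) /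
        (1 - starRingEnd ℂ a * p.1)) = 1 := by
      field_simp
      linear_combination hs
    rw [h3, one_smul]

/-- **One slice.** -/
theorem slice_a {δ : ℝ} (hδ : 0 < δ) (hδ1 : δ ≤ 1) {a : ℂ} (ha : ‖a‖ < 1) {G : ℂ × E → ℂ}
    (hd : DifferentiableOn ℂ G (BB E 1)) (hb : ∀ p ∈ BB E 1, ‖G p‖ ≤ 1)
    (hc : ∀ p ∈ BB E 1, δ ≤ ‖(p.1 - a) / (1 - starRingEnd ℂ a * p.1)‖ + ‖G p‖) :
    ∃ u w : ℂ × E → ℂ, DifferentiableOn ℂ u (BB E 1) ∧ DifferentiableOn ℂ w (BB E 1) ∧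
      (∀ p ∈ BB E 1, ‖u p‖ ≤ KK (δ / 2)) ∧ (∀ p ∈ BB E 1, ‖w p‖ ≤ KK (δ / 2)) ∧
      (∀ p ∈ BB E 1, (p.1 - a) / (1 - starRingEnd ℂ a * p.1) * u p + G p * w p = 1) := by
  have ha' : ‖-a‖ < 1 := by rwa [norm_neg]
  have hTT : ∀ p ∈ BB E 1, Ta a (Ta (-a) p) = p := by
    intro p hp
    have := Ta_neg_Ta ha' hp
    rwa [neg_neg] at this
  obtain ⟨u, w, h1, h2, h3, h4, h5⟩ := slice0 hδ hδ1 (G := fun p => G (Ta (-a) p))
    (hd.comp (Ta_diff ha') (fun p hp => Ta_mem ha' hp))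
    (fun p hp => hb _ (Ta_mem ha' hp)) (fun p hp => by
      have h := hc _ (Ta_mem ha' hp)
      have h' : ((Ta (-a) p).1 - a) / (1 - starRingEnd ℂ a * (Ta (-a) p).1) = p.1 := by
        have := congrArg Prod.fst (hTT p hp)
        exact this
      rwa [h'] at h)
  refine ⟨fun p => u (Ta a p), fun p => w (Ta a p), h1.comp (Ta_diff ha) (fun p hp => Ta_mem ha hp),
    h2.comp (Ta_diff ha) (fun p hp => Ta_mem ha hp), fun p hp => h3 _ (Ta_mem ha hp),
    fun p hp => h4 _ (Ta_mem ha hp), fun p hp => ?_⟩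
  have h := h5 _ (Ta_mem ha hp)
  simp only [Ta_neg_Ta ha hp] at h
  exact h

end Pool.Agent.H720R2.Cor
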