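import Mathlib
import Pool.Agent.H720R2.Cor.Slice

/-!
Beurling functions for finite uniformly separated sets in the disc, by the formula of P. Jones.
-/

set_option autoImplicit false

open Set Metric Filter Topology Complex Real

namespace Pool.Agent.H720R2.Cor

/-- Blaschke factor -/
noncomputable def bl (a z : ℂ) : ℂ := (z - a) / (1 - starRingEnd ℂ a * z)

theorem den_ne2 {a z : ℂ} (ha : ‖a‖ < 1) (hz : ‖z‖ ≤ 1) : 1 - starRingEnd ℂ a * z ≠ 0 := by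
  intro h
  have h1 : starRingEnd ℂ a * z = 1 := by linear_combination -h
  have h2 : ‖starRingEnd ℂ a * z‖ = 1 := by rw [h1, norm_one]
  rw [norm_mul, RCLike.norm_conj] at h2
  nlinarith [norm_nonneg a, norm_nonneg z]

theorem bl_diff {a z : ℂ} (ha : ‖a‖ < 1) (hz : ‖z‖ ≤ 1) : DifferentiableAt ℂ (bl a) z := by
  unfold bl
  exact DifferentiableAt.fun_div (by fun_prop) (by fun_prop) (den_ne2 ha hz)

theorem bl_self (a : ℂ) : bl a a = 0 := by simp [bl]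

theorem bl_norm_sq {a z : ℂ} (ha : ‖a‖ < 1) (hz : ‖z‖ ≤ 1) :
    1 - ‖bl a z‖ ^ 2 = (1 - ‖a‖ ^ 2) * (1 - ‖z‖ ^ 2) / ‖1 - starRingEnd ℂ a * z‖ ^ 2 := by
  have h0 : 0 < ‖1 - starRingEnd ℂ a * z‖ := norm_pos_iff.2 (den_ne2 ha hz)
  rw [← normSq_ident, bl, norm_div, div_pow, sub_div, div_self (by positivity)]

theorem bl_le_one {a z : ℂ} (ha : ‖a‖ < 1) (hz : ‖z‖ ≤ 1) : ‖bl a z‖ ≤ 1 := by
  have h := bl_norm_sq ha hz
  have h1 : 0 ≤ (1 - ‖a‖ ^ 2) * (1 - ‖z‖ ^ 2) / ‖1 - starRingEnd ℂ a * z‖ ^ 2 := by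
    have h2 : 0 ≤ 1 - ‖a‖ ^ 2 := by nlinarith [norm_nonneg a]
    have h3 : 0 ≤ 1 - ‖z‖ ^ 2 := by nlinarith [norm_nonneg z]
    positivity
  nlinarith [norm_nonneg (bl a z)]

theorem bl_circle {a z : ℂ} (ha : ‖a‖ < 1) (hz : ‖z‖ = 1) : ‖bl a z‖ = 1 := by
  have h := bl_norm_sq ha hz.le
  rw [hz] at h
  have h2 : ‖bl a z‖ ^ 2 = 1 := by
    have : (1 - ‖a‖ ^ 2) * (1 - (1 : ℝ) ^ 2) / ‖1 - starRingEnd ℂ a * z‖ ^ 2 = 0 := by simp
    linarith
  nlinarith [norm_nonneg (bl a z), sq_nonneg (‖bl a z‖ - 1)]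

/-! ### division by a finite Blaschke product -/

theorem divide_one {f : ℂ → ℂ} {M : ℝ} (hf : ∀ z : ℂ, ‖z‖ ≤ 1 → DifferentiableAt ℂ f z)
    (hM : ∀ z : ℂ, ‖z‖ ≤ 1 → ‖f z‖ ≤ M) {a : ℂ} (ha : ‖a‖ < 1) (h0 : f a = 0) :
    ∃ g : ℂ → ℂ, (∀ z : ℂ, ‖z‖ ≤ 1 → DifferentiableAt ℂ g z) ∧
      (∀ z : ℂ, ‖z‖ ≤ 1 → ‖g z‖ ≤ M) ∧ ∀ z : ℂ, ‖z‖ ≤ 1 → f z = bl a z * g z := by
  set g : ℂ → ℂ := fun z => dslope f a z * (1 - starRingEnd ℂ a * z) with hg
  have hgd : ∀ z : ℂ, ‖z‖ ≤ 1 → DifferentiableAt ℂ g z := by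
    intro z hz
    refine DifferentiableAt.fun_mul ?_ (by fun_prop)
    by_cases hza : z = a
    · have hU : ball (0 : ℂ) 1 ∈ 𝓝 a := isOpen_ball.mem_nhds (by simpa using ha)
      have hdU : DifferentiableOn ℂ f (ball (0 : ℂ) 1) := fun w hw =>
        (hf w (by rw [mem_ball_zero_iff] at hw; exact hw.le)).differentiableWithinAt
      rw [hza]
      exact ((differentiableOn_dslope hU).2 hdU).differentiableAt hU
    · exact (differentiableAt_dslope_of_ne hza).2 (hf z hz)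
  have hfac : ∀ z : ℂ, ‖z‖ ≤ 1 → f z = bl a z * g z := by
    intro z hz
    have hd := den_ne2 ha hz
    by_cases hza : z = a
    · rw [hza, bl_self, h0, zero_mul]
    · have h1 : z - a ≠ 0 := sub_ne_zero.2 hza
      simp only [hg, bl, dslope_of_ne _ hza, slope_def_field, h0, sub_zero]
      have h2 : (z - a) / (1 - starRingEnd ℂ a * z) * (f z / (z - a) * (1 - starRingEnd ℂ a * z)) =
          f z * ((z - a) / (z - a)) * ((1 - starRingEnd ℂ a * z) / (1 - starRingEnd ℂ a * z)) := by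
        ring
      rw [h2, div_self h1, div_self hd, mul_one, mul_one]
  refine ⟨g, hgd, ?_, hfac⟩
  intro z hz
  have hdc : DiffContOnCl ℂ g (ball 0 1) := by
    refine DifferentiableOn.diffContOnCl ?_
    rw [closure_ball _ one_ne_zero]
    intro w hw
    rw [mem_closedBall_zero_iff] at hw
    exact (hgd w hw).differentiableWithinAt
  refine Complex.norm_le_of_forall_mem_frontier_norm_le isBounded_ball hdc ?_
    (by rw [closure_ball _ one_ne_zero, mem_closedBall_zero_iff]; exact hz)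
  intro w hw
  rw [frontier_ball _ one_ne_zero, mem_sphere_zero_iff_norm] at hw
  have h1 := hfac w hw.le
  have h2 := hM w hw.le
  rw [h1, norm_mul, bl_circle ha hw, one_mul] at h2
  exact h2

theorem divide {ι : Type*} [DecidableEq ι] (a : ι → ℂ) (S : Finset ι) {f : ℂ → ℂ} {M : ℝ}
    (hf : ∀ z : ℂ, ‖z‖ ≤ 1 → DifferentiableAt ℂ f z)
    (hM : ∀ z : ℂ, ‖z‖ ≤ 1 → ‖f z‖ ≤ M) (ha : ∀ k ∈ S, ‖a k‖ < 1)
    (hinj : ∀ k ∈ S, ∀ j ∈ S, j ≠ k → bl (a j) (a k) ≠ 0) (h0 : ∀ k ∈ S, f (a k) = 0) :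
    ∃ g : ℂ → ℂ, (∀ z : ℂ, ‖z‖ ≤ 1 → DifferentiableAt ℂ g z) ∧
      (∀ z : ℂ, ‖z‖ ≤ 1 → ‖g z‖ ≤ M) ∧
      ∀ z : ℂ, ‖z‖ ≤ 1 → f z = (∏ k ∈ S, bl (a k) z) * g z := by
  induction S using Finset.induction_on generalizing f with
  | empty => exact ⟨f, hf, hM, fun z _ => by simp⟩
  | insert i S hi ih =>
    obtain ⟨g, hg1, hg2, hg3⟩ := divide_one hf hM (ha i (Finset.mem_insert_self _ _))
      (h0 i (Finset.mem_insert_self _ _))
    obtain ⟨h, hh1, hh2, hh3⟩ := ih hg1 hg2 (fun k hk => ha k (Finset.mem_insert_of_mem hk))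
      (fun k hk j hj => hinj k (Finset.mem_insert_of_mem hk) j (Finset.mem_insert_of_mem hj))
      (fun k hk => by
        have h1 := hg3 (a k) (ha k (Finset.mem_insert_of_mem hk)).le
        rw [h0 k (Finset.mem_insert_of_mem hk)] at h1
        have hne : i ≠ k := fun h => hi (h ▸ hk)
        have h2 := hinj k (Finset.mem_insert_of_mem hk) i (Finset.mem_insert_self _ _) hne
        rcases mul_eq_zero.1 h1.symm with h3 | h3
        · exact absurd h3 h2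
        · exact h3)
    refine ⟨h, hh1, hh2, fun z hz => ?_⟩
    rw [hg3 z hz, hh3 z hz, Finset.prod_insert hi, mul_assoc]

/-! ### the sum estimate -/

theorem exp_sum_le {ι : Type*} [DecidableEq ι] (S : Finset ι) (r x : ι → ℝ)
    (hx : ∀ k ∈ S, 0 ≤ x k) :
    ∑ k ∈ S, x k * Real.exp (-∑ j ∈ S.filter (fun j => r k ≤ r j), x j) ≤
      1 - Real.exp (-∑ j ∈ S, x j) := by
  induction S using Finset.induction_on_min_value r with
  | empty => simp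
  | insert i S hi hmin ih =>
    have ih' := ih (fun k hk => hx k (Finset.mem_insert_of_mem hk))
    rw [Finset.sum_insert hi, Finset.sum_insert hi]
    have hxi := hx i (Finset.mem_insert_self _ _)
    have h1 : (insert i S).filter (fun j => r i ≤ r j) = insert i S := by
      refine Finset.filter_true_of_mem (fun j hj => ?_)
      rcases Finset.mem_insert.1 hj with h | h
      · rw [h]
      · exact hmin j h
    rw [h1, Finset.sum_insert hi]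
    have h2 : ∀ k ∈ S, x k * Real.exp (-∑ j ∈ (insert i S).filter (fun j => r k ≤ r j), x j) ≤
        x k * Real.exp (-∑ j ∈ S.filter (fun j => r k ≤ r j), x j) := by
      intro k hk
      refine mul_le_mul_of_nonneg_left ?_ (hx k (Finset.mem_insert_of_mem hk))
      refine Real.exp_le_exp.2 (neg_le_neg ?_)
      refine Finset.sum_le_sum_of_subset_of_nonneg ?_ ?_
      · exact Finset.filter_subset_filter _ (Finset.subset_insert _ _)
      · intro j hj _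
        exact hx j (Finset.mem_of_mem_filter j hj)
    have h3 := Finset.sum_le_sum h2
    set X := ∑ j ∈ S, x j with hX
    have h4 : x i * Real.exp (-(x i + X)) ≤ Real.exp (-X) - Real.exp (-(x i + X)) := by
      have h5 : Real.exp (-X) = Real.exp (x i) * Real.exp (-(x i + X)) := by
        rw [← Real.exp_add]
        congr 1
        ring
      rw [h5]
      have h6 := Real.add_one_le_exp (x i)
      have h7 := Real.exp_pos (-(x i + X))
      nlinarith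
    linarith

/-! ### the functions -/

section

variable {ι : Type*} [DecidableEq ι]

/-- a finite uniformly separated set -/
structure Sep (a : ι → ℂ) (S : Finset ι) (δ₀ : ℝ) : Prop where
  ha : ∀ k ∈ S, ‖a k‖ < 1
  hδ : 0 < δ₀
  hs : ∀ k ∈ S, δ₀ ≤ ∏ j ∈ S.erase k, ‖bl (a j) (a k)‖

/-- the Herglotz kernel -/
noncomputable def Pk (a z : ℂ) : ℂ :=
  ((1 - ‖a‖ ^ 2 : ℝ) : ℂ) * ((1 + starRingEnd ℂ a * z) / (1 - starRingEnd ℂ a * z))

theorem re_aux (w : ℂ) (hw : 1 - w ≠ 0) : ((1 + w) / (1 - w)).re = (1 - ‖w‖ ^ 2) / ‖1 - w‖ ^ 2 := by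
  have h1 : Complex.normSq (1 - w) ≠ 0 := by
    rw [Ne, Complex.normSq_eq_zero]
    exact hw
  rw [Complex.div_re, ← add_div, ← Complex.normSq_eq_norm_sq, ← Complex.normSq_eq_norm_sq]
  congr 1
  simp only [Complex.normSq_apply, Complex.add_re, Complex.sub_re, Complex.add_im, Complex.sub_im,
    Complex.one_re, Complex.one_im]
  ring

theorem Pk_re {a z : ℂ} (ha : ‖a‖ < 1) (hz : ‖z‖ ≤ 1) :
    (Pk a z).re = (1 - ‖a‖ ^ 2) * ((1 - ‖a‖ ^ 2 * ‖z‖ ^ 2) / ‖1 - starRingEnd ℂ a * z‖ ^ 2) := by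
  rw [Pk, Complex.re_ofReal_mul, re_aux _ (den_ne2 ha hz), norm_mul, RCLike.norm_conj]
  ring

theorem Pk_diff {a z : ℂ} (ha : ‖a‖ < 1) (hz : ‖z‖ ≤ 1) : DifferentiableAt ℂ (Pk a) z := by
  unfold Pk
  have h1 : DifferentiableAt ℂ (fun z : ℂ => 1 + starRingEnd ℂ a * z) z := by fun_prop
  have h2 : DifferentiableAt ℂ (fun z : ℂ => 1 - starRingEnd ℂ a * z) z := by fun_prop
  exact (h1.fun_div h2 (den_ne2 ha hz)).const_mul _

theorem Pk_lower {a z : ℂ} (ha : ‖a‖ < 1) (hz : ‖z‖ ≤ 1) :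
    (1 - ‖a‖ ^ 2) ^ 2 / ‖1 - starRingEnd ℂ a * z‖ ^ 2 ≤ (Pk a z).re := by
  rw [Pk_re ha hz]
  have h0 : 0 < ‖1 - starRingEnd ℂ a * z‖ := norm_pos_iff.2 (den_ne2 ha hz)
  have h1 := norm_nonneg a
  have h2 : 0 ≤ 1 - ‖a‖ ^ 2 := by nlinarith
  have h3 : ‖z‖ ^ 2 ≤ 1 := by nlinarith [norm_nonneg z]
  rw [← mul_div_assoc]
  have h4 : ‖a‖ ^ 2 * ‖z‖ ^ 2 ≤ ‖a‖ ^ 2 := by nlinarith [sq_nonneg ‖a‖]
  gcongr
  nlinarith

theorem Sep.ne_zero {a : ι → ℂ} {S : Finset ι} {δ₀ : ℝ} (h : Sep a S δ₀) {k j : ι} (hk : k ∈ S)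
    (hj : j ∈ S) (hjk : j ≠ k) : bl (a j) (a k) ≠ 0 := by
  intro h0
  have h1 : ∏ j ∈ S.erase k, ‖bl (a j) (a k)‖ = 0 :=
    Finset.prod_eq_zero (Finset.mem_erase.2 ⟨hjk, hj⟩) (by rw [h0, norm_zero])
  have h2 := h.hs k hk
  have h3 := h.hδ
  linarith

theorem Sep.A_at {a : ι → ℂ} {S : Finset ι} {δ₀ : ℝ} (h : Sep a S δ₀) {k : ι} (hk : k ∈ S) :
    ∑ j ∈ S.filter (fun j => ‖a k‖ ≤ ‖a j‖), (Pk (a j) (a k)).re ≤ 2 - 4 * Real.log δ₀ := by
  have hak := h.ha k hk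
  have hterm : ∀ j ∈ S.filter (fun j => ‖a k‖ ≤ ‖a j‖),
      (Pk (a j) (a k)).re ≤ 2 * (1 - ‖bl (a j) (a k)‖ ^ 2) := by
    intro j hj
    obtain ⟨hjS, hjk⟩ := Finset.mem_filter.1 hj
    have haj := h.ha j hjS
    rw [Pk_re haj hak.le, bl_norm_sq haj hak.le]
    have h0 : 0 < ‖1 - starRingEnd ℂ (a j) * a k‖ := norm_pos_iff.2 (den_ne2 haj hak.le)
    have h1 := norm_nonneg (a k)
    have h1' := norm_nonneg (a j)
    have h2 : 0 ≤ 1 - ‖a j‖ ^ 2 := by nlinarith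
    have h3 : ‖a k‖ ^ 2 ≤ ‖a j‖ ^ 2 := pow_le_pow_left₀ h1 hjk 2
    have h4 : 1 - ‖a j‖ ^ 2 * ‖a k‖ ^ 2 ≤ 2 * (1 - ‖a k‖ ^ 2) := by
      nlinarith [sq_nonneg ‖a k‖]
    calc (1 - ‖a j‖ ^ 2) * ((1 - ‖a j‖ ^ 2 * ‖a k‖ ^ 2) / ‖1 - starRingEnd ℂ (a j) * a k‖ ^ 2)
        ≤ (1 - ‖a j‖ ^ 2) * ((2 * (1 - ‖a k‖ ^ 2)) / ‖1 - starRingEnd ℂ (a j) * a k‖ ^ 2) := by
          gcongr
      _ = _ := by ring
  have hnn : ∀ j ∈ S, 0 ≤ 2 * (1 - ‖bl (a j) (a k)‖ ^ 2) := by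
    intro j hj
    have := bl_le_one (h.ha j hj) hak.le
    nlinarith [norm_nonneg (bl (a j) (a k))]
  have h1 : ∑ j ∈ S.filter (fun j => ‖a k‖ ≤ ‖a j‖), (Pk (a j) (a k)).re ≤
      ∑ j ∈ S, 2 * (1 - ‖bl (a j) (a k)‖ ^ 2) :=
    (Finset.sum_le_sum hterm).trans
      (Finset.sum_le_sum_of_subset_of_nonneg (Finset.filter_subset _ _) (fun j hj _ => hnn j hj))
  rw [← Finset.add_sum_erase S _ hk, bl_self, norm_zero] at h1
  have h2 : ∑ j ∈ S.erase k, 2 * (1 - ‖bl (a j) (a k)‖ ^ 2) ≤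
      ∑ j ∈ S.erase k, (-4) * Real.log ‖bl (a j) (a k)‖ := by
    refine Finset.sum_le_sum (fun j hj => ?_)
    obtain ⟨hjk, hjS⟩ := Finset.mem_erase.1 hj
    have hpos : 0 < ‖bl (a j) (a k)‖ := norm_pos_iff.2 (h.ne_zero hk hjS hjk)
    have h3 := Real.log_le_sub_one_of_pos (by positivity : 0 < ‖bl (a j) (a k)‖ ^ 2)
    rw [Real.log_pow] at h3
    push_cast at h3
    linarith
  have h2' : ∑ j ∈ S.erase k, (-4) * Real.log ‖bl (a j) (a k)‖ =
      (-4) * Real.log (∏ j ∈ S.erase k, ‖bl (a j) (a k)‖) := by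
    rw [← Finset.mul_sum, ← Real.log_prod (fun j hj => by
      obtain ⟨hjk, hjS⟩ := Finset.mem_erase.1 hj
      exact (norm_pos_iff.2 (h.ne_zero hk hjS hjk)).ne')]
  rw [h2'] at h2
  have h4 := Real.log_le_log h.hδ (h.hs k hk)
  linarith

/-- the numerator functions of P. Jones -/
noncomputable def st (a : ι → ℂ) (S : Finset ι) (k : ι) (z : ℂ) : ℂ :=
  (((1 - ‖a k‖ ^ 2 : ℝ) : ℂ) / (1 - starRingEnd ℂ (a k) * z)) ^ 2 *
    Complex.exp (-(∑ j ∈ S.filter (fun j => ‖a k‖ ≤ ‖a j‖), Pk (a j) z -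
      ∑ j ∈ S.filter (fun j => ‖a k‖ ≤ ‖a j‖), Pk (a j) (a k)))

theorem st_self {a : ι → ℂ} {S : Finset ι} {δ₀ : ℝ} (h : Sep a S δ₀) {k : ι} (hk : k ∈ S) :
    st a S k (a k) = 1 := by
  have hak := h.ha k hk
  have h1 : 1 - starRingEnd ℂ (a k) * a k = ((1 - ‖a k‖ ^ 2 : ℝ) : ℂ) := by
    rw [mul_comm, Complex.mul_conj, Complex.normSq_eq_norm_sq]
    push_cast
    ring
  have h2 : ((1 - ‖a k‖ ^ 2 : ℝ) : ℂ) ≠ 0 := by
    rw [← h1]
    exact den_ne2 hak hak.le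
  rw [st, h1, div_self h2, sub_self, neg_zero, Complex.exp_zero]
  ring

theorem st_diff {a : ι → ℂ} {S : Finset ι} {δ₀ : ℝ} (h : Sep a S δ₀) {k : ι} (hk : k ∈ S) {z : ℂ}
    (hz : ‖z‖ ≤ 1) : DifferentiableAt ℂ (st a S k) z := by
  have h1 : DifferentiableAt ℂ (fun z => ∑ j ∈ S.filter (fun j => ‖a k‖ ≤ ‖a j‖), Pk (a j) z) z :=
    DifferentiableAt.fun_sum (fun j hj => Pk_diff (h.ha j (Finset.mem_of_mem_filter j hj)) hz)
  have h2 : DifferentiableAt ℂ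
      (fun z => ((1 - ‖a k‖ ^ 2 : ℝ) : ℂ) / (1 - starRingEnd ℂ (a k) * z)) z :=
    DifferentiableAt.fun_div (by fun_prop) (by fun_prop) (den_ne2 (h.ha k hk) hz)
  unfold st
  exact (h2.fun_pow 2).fun_mul ((h1.sub_const _).fun_neg.cexp)

theorem st_sum {a : ι → ℂ} {S : Finset ι} {δ₀ : ℝ} (h : Sep a S δ₀) {z : ℂ} (hz : ‖z‖ ≤ 1) :
    ∑ k ∈ S, ‖st a S k z‖ ≤ Real.exp (2 - 4 * Real.log δ₀) := by
  set x : ι → ℝ := fun k => (1 - ‖a k‖ ^ 2) ^ 2 / ‖1 - starRingEnd ℂ (a k) * z‖ ^ 2 with hx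
  have hx0 : ∀ k, 0 ≤ x k := fun k => by positivity
  have hterm : ∀ k ∈ S, ‖st a S k z‖ ≤
      x k * Real.exp (-∑ j ∈ S.filter (fun j => ‖a k‖ ≤ ‖a j‖), x j) *
        Real.exp (2 - 4 * Real.log δ₀) := by
    intro k hk
    have hak := h.ha k hk
    have h0 : 0 ≤ 1 - ‖a k‖ ^ 2 := by nlinarith [norm_nonneg (a k)]
    rw [st, norm_mul, norm_pow, norm_div, Complex.norm_real, Real.norm_of_nonneg h0, div_pow,
      Complex.norm_exp, mul_assoc, ← Real.exp_add]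
    refine mul_le_mul_of_nonneg_left ?_ (hx0 k)
    refine Real.exp_le_exp.2 ?_
    rw [Complex.neg_re, Complex.sub_re, Complex.re_sum, Complex.re_sum]
    have h1 := h.A_at hk
    have h2 : ∑ j ∈ S.filter (fun j => ‖a k‖ ≤ ‖a j‖), x j ≤
        ∑ j ∈ S.filter (fun j => ‖a k‖ ≤ ‖a j‖), (Pk (a j) z).re :=
      Finset.sum_le_sum (fun j hj => Pk_lower (h.ha j (Finset.mem_of_mem_filter j hj)) hz)
    linarith
  refine (Finset.sum_le_sum hterm).trans ?_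
  rw [← Finset.sum_mul]
  have h1 := exp_sum_le S (fun k => ‖a k‖) x (fun k _ => hx0 k)
  have h2 := Real.exp_pos (-∑ j ∈ S, x j)
  have h3 := Real.exp_pos (2 - 4 * Real.log δ₀)
  calc _ ≤ 1 * Real.exp (2 - 4 * Real.log δ₀) := by
        refine mul_le_mul_of_nonneg_right ?_ h3.le
        linarith
    _ = _ := one_mul _

/-- the constant of the Beurling functions -/
noncomputable def MB (δ₀ : ℝ) : ℝ := Real.exp (2 - 4 * Real.log δ₀) / δ₀

/-- **Beurling functions.** -/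
theorem beurling {a : ι → ℂ} {S : Finset ι} {δ₀ : ℝ} (h : Sep a S δ₀) :
    ∃ e : ι → ℂ → ℂ, (∀ k ∈ S, ∀ z : ℂ, ‖z‖ ≤ 1 → DifferentiableAt ℂ (e k) z) ∧
      (∀ z : ℂ, ‖z‖ ≤ 1 → ∑ k ∈ S, ‖e k z‖ ≤ MB δ₀) ∧
      ∀ k ∈ S, e k (a k) * ∏ j ∈ S.erase k, bl (a j) (a k) = 1 := by
  have hδ := h.hδ
  refine ⟨fun k z => st a S k z / ∏ j ∈ S.erase k, bl (a j) (a k), ?_, ?_, ?_⟩
  · intro k hk z hz
    exact (st_diff h hk hz).div_const _
  · intro z hz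
    have h1 : ∀ k ∈ S, ‖st a S k z / ∏ j ∈ S.erase k, bl (a j) (a k)‖ ≤ ‖st a S k z‖ * (1 / δ₀) := by
      intro k hk
      rw [norm_div, norm_prod, div_eq_mul_one_div]
      refine mul_le_mul_of_nonneg_left ?_ (norm_nonneg _)
      exact one_div_le_one_div_of_le hδ (h.hs k hk)
    refine (Finset.sum_le_sum h1).trans ?_
    rw [← Finset.sum_mul]
    calc (∑ k ∈ S, ‖st a S k z‖) * (1 / δ₀) ≤ Real.exp (2 - 4 * Real.log δ₀) * (1 / δ₀) :=
          mul_le_mul_of_nonneg_right (st_sum h hz) (by positivity)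
      _ = MB δ₀ := by rw [MB, mul_one_div]
  · intro k hk
    have hne : ∏ j ∈ S.erase k, bl (a j) (a k) ≠ 0 := by
      rw [Finset.prod_ne_zero_iff]
      intro j hj
      obtain ⟨hjk, hjS⟩ := Finset.mem_erase.1 hj
      exact h.ne_zero hk hjS hjk
    simp only [st_self h hk]
    field_simp

/-! ### finite Blaschke products -/

variable {E : Type} [NormedAddCommGroup E] [NormedSpace ℂ E] [FiniteDimensional ℂ E]

theorem fin_case {a : ι → ℂ} {S : Finset ι} {δ₀ : ℝ} (h : Sep a S δ₀) {δ : ℝ} (hδ : 0 < δ)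
    (hδ1 : δ ≤ 1) {G : ℂ × E → ℂ}
    (hd : DifferentiableOn ℂ G (BB E 1)) (hb : ∀ p ∈ BB E 1, ‖G p‖ ≤ 1)
    (hc : ∀ p ∈ BB E 1, δ ≤ ‖∏ k ∈ S, bl (a k) p.1‖ + ‖G p‖) :
    ∃ u w : ℂ × E → ℂ, DifferentiableOn ℂ u (BB E 1) ∧ DifferentiableOn ℂ w (BB E 1) ∧
      (∀ p ∈ BB E 1, ‖u p‖ ≤ 1 + MB δ₀ + MB δ₀ * KK (δ / 2)) ∧
      (∀ p ∈ BB E 1, ‖w p‖ ≤ 1 + MB δ₀ + MB δ₀ * KK (δ / 2)) ∧
      (∀ p ∈ BB E 1, (∏ k ∈ S, bl (a k) p.1) * u p + G p * w p = 1) := by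
  obtain ⟨e, he1, he2, he3⟩ := beurling h
  have hMB : 0 < MB δ₀ := div_pos (Real.exp_pos _) h.hδ
  have hKK : 0 < KK (δ / 2) := by
    unfold KK
    positivity
  have hslice : ∀ k, ∃ u w : ℂ × E → ℂ, k ∈ S → (DifferentiableOn ℂ u (BB E 1) ∧
      DifferentiableOn ℂ w (BB E 1) ∧
      (∀ p ∈ BB E 1, ‖u p‖ ≤ KK (δ / 2)) ∧ (∀ p ∈ BB E 1, ‖w p‖ ≤ KK (δ / 2)) ∧
      (∀ p ∈ BB E 1, bl (a k) p.1 * u p + G p * w p = 1)) := by
    intro k
    by_cases hk : k ∈ S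
    · obtain ⟨u, w, h1⟩ := slice_a hδ hδ1 (h.ha k hk) hd hb (fun p hp => by
        refine (hc p hp).trans ?_
        gcongr
        change _ ≤ ‖bl (a k) p.1‖
        have hp1 := (fst_lt_one hp).le
        rw [← Finset.mul_prod_erase S _ hk, norm_mul, norm_prod]
        refine mul_le_of_le_one_right (norm_nonneg _) ?_
        refine Finset.prod_le_one (fun j _ => norm_nonneg _) (fun j hj => ?_)
        exact bl_le_one (h.ha j (Finset.mem_of_mem_erase hj)) hp1)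
      exact ⟨u, w, fun _ => h1⟩
    · exact ⟨0, 0, fun h => absurd h hk⟩
  choose u w huw using hslice
  -- the products
  set Bk : ι → ℂ → ℂ := fun k z => ∏ j ∈ S.erase k, bl (a j) z with hBk
  have hBk1 : ∀ k, ∀ z : ℂ, ‖z‖ ≤ 1 → ‖Bk k z‖ ≤ 1 := by
    intro k z hz
    simp only [hBk]
    rw [norm_prod]
    exact Finset.prod_le_one (fun j _ => norm_nonneg _) (fun j hj =>
      bl_le_one (h.ha j (Finset.mem_of_mem_erase hj)) hz)
  have hBkd : ∀ k, ∀ z : ℂ, ‖z‖ ≤ 1 → DifferentiableAt ℂ (Bk k) z := by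
    intro k z hz
    simp only [hBk]
    exact DifferentiableAt.fun_finsetProd (fun j hj =>
      bl_diff (h.ha j (Finset.mem_of_mem_erase hj)) hz)
  set f : ℂ → ℂ := fun z => 1 - ∑ k ∈ S, e k z * Bk k z with hf
  have hfd : ∀ z : ℂ, ‖z‖ ≤ 1 → DifferentiableAt ℂ f z := by
    intro z hz
    simp only [hf]
    refine (differentiableAt_const _).fun_sub (DifferentiableAt.fun_sum (fun k hk => ?_))
    exact (he1 k hk z hz).fun_mul (hBkd k z hz)
  have hfM : ∀ z : ℂ, ‖z‖ ≤ 1 → ‖f z‖ ≤ 1 + MB δ₀ := by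
    intro z hz
    simp only [hf]
    refine (norm_sub_le _ _).trans ?_
    rw [norm_one]
    gcongr
    refine (norm_sum_le _ _).trans ((Finset.sum_le_sum (fun k _ => ?_)).trans (he2 z hz))
    rw [norm_mul]
    exact mul_le_of_le_one_right (norm_nonneg _) (hBk1 k z hz)
  have hf0 : ∀ k ∈ S, f (a k) = 0 := by
    intro k hk
    simp only [hf]
    rw [Finset.sum_eq_single_of_mem k hk]
    · simp only [hBk]
      rw [he3 k hk, sub_self]
    · intro j hj hjk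
      have : Bk j (a k) = 0 := by
        simp only [hBk]
        exact Finset.prod_eq_zero (Finset.mem_erase.2 ⟨hjk.symm, hk⟩) (bl_self _)
      rw [this, mul_zero]
  obtain ⟨g, hg1, hg2, hg3⟩ := divide a S hfd hfM h.ha
    (fun k hk j hj hjk => h.ne_zero hk hj hjk) hf0
  have hfst : ∀ (φ : ℂ → ℂ), (∀ z : ℂ, ‖z‖ ≤ 1 → DifferentiableAt ℂ φ z) →
      DifferentiableOn ℂ (fun p : ℂ × E => φ p.1) (BB E 1) := by
    intro φ hφ p hp
    exact (DifferentiableAt.comp (f := fun q : ℂ × E => q.1) p (hφ p.1 (fst_lt_one hp).le)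
      differentiableAt_fst).differentiableWithinAt
  refine ⟨fun p => g p.1 + ∑ k ∈ S, e k p.1 * u k p, fun p => ∑ k ∈ S, (e k p.1 * Bk k p.1) * w k p,
    ?_, ?_, ?_, ?_, ?_⟩
  · refine (hfst g hg1).fun_add (DifferentiableOn.fun_sum (fun k hk => ?_))
    exact (hfst (e k) (he1 k hk)).fun_mul (huw k hk).1
  · refine DifferentiableOn.fun_sum (fun k hk => ?_)
    exact ((hfst (e k) (he1 k hk)).fun_mul (hfst (Bk k) (hBkd k))).fun_mul (huw k hk).2.1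
  · intro p hp
    have hp1 := (fst_lt_one hp).le
    refine (norm_add_le _ _).trans (add_le_add (hg2 _ hp1) ?_)
    refine (norm_sum_le _ _).trans ?_
    calc ∑ k ∈ S, ‖e k p.1 * u k p‖ ≤ ∑ k ∈ S, ‖e k p.1‖ * KK (δ / 2) := by
          refine Finset.sum_le_sum (fun k hk => ?_)
          rw [norm_mul]
          gcongr
          exact (huw k hk).2.2.1 p hp
      _ = (∑ k ∈ S, ‖e k p.1‖) * KK (δ / 2) := by rw [Finset.sum_mul]
      _ ≤ MB δ₀ * KK (δ / 2) := by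
          gcongr
          exact he2 _ hp1
  · intro p hp
    have hp1 := (fst_lt_one hp).le
    refine (norm_sum_le _ _).trans ?_
    calc ∑ k ∈ S, ‖e k p.1 * Bk k p.1 * w k p‖ ≤ ∑ k ∈ S, ‖e k p.1‖ * KK (δ / 2) := by
          refine Finset.sum_le_sum (fun k hk => ?_)
          rw [norm_mul, norm_mul]
          have h1 := hBk1 k p.1 hp1
          have h2 := (huw k hk).2.2.2.1 p hp
          calc ‖e k p.1‖ * ‖Bk k p.1‖ * ‖w k p‖ ≤ ‖e k p.1‖ * 1 * KK (δ / 2) := by gcongr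
            _ = _ := by ring
      _ = (∑ k ∈ S, ‖e k p.1‖) * KK (δ / 2) := by rw [Finset.sum_mul]
      _ ≤ MB δ₀ * KK (δ / 2) := by
          gcongr
          exact he2 _ hp1
      _ ≤ _ := by linarith
  · intro p hp
    have hp1 := (fst_lt_one hp).le
    have h1 := hg3 p.1 hp1
    have h2 : ∀ k ∈ S, ∏ j ∈ S, bl (a j) p.1 = bl (a k) p.1 * Bk k p.1 := by
      intro k hk
      simp only [hBk]
      rw [Finset.mul_prod_erase S (fun j => bl (a j) p.1) hk]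
    have h3 : (∏ j ∈ S, bl (a j) p.1) * (g p.1 + ∑ k ∈ S, e k p.1 * u k p) +
        G p * ∑ k ∈ S, (e k p.1 * Bk k p.1) * w k p =
        f p.1 + ∑ k ∈ S, ((∏ j ∈ S, bl (a j) p.1) * (e k p.1 * u k p) +
          G p * ((e k p.1 * Bk k p.1) * w k p)) := by
      rw [mul_add, ← h1, Finset.sum_add_distrib, Finset.mul_sum, Finset.mul_sum]
      ring
    rw [h3]
    have h4 : ∑ k ∈ S, ((∏ j ∈ S, bl (a j) p.1) * (e k p.1 * u k p) +
          G p * ((e k p.1 * Bk k p.1) * w k p)) = ∑ k ∈ S, e k p.1 * Bk k p.1 := by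
      refine Finset.sum_congr rfl (fun k hk => ?_)
      rw [h2 k hk]
      have h5 := (huw k hk).2.2.2.2 p hp
      calc bl (a k) p.1 * Bk k p.1 * (e k p.1 * u k p) + G p * (e k p.1 * Bk k p.1 * w k p)
          = e k p.1 * Bk k p.1 * (bl (a k) p.1 * u k p + G p * w k p) := by ring
        _ = e k p.1 * Bk k p.1 := by rw [h5, mul_one]
    rw [h4]
    simp only [hf]
    ring

end

end Pool.Agent.H720R2.Cor
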