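import Mathlib
import Pool.Agent.H720R2.Cor.Jones

/-!
Interpolating Blaschke products of one coordinate.
-/

set_option autoImplicit false

open Set Metric Filter Topology Complex Real

namespace Pool.Agent.H720R2.Cor

/-- The normalised Blaschke factor with zero `a`. -/
noncomputable def blaschkeFactor (a z : ℂ) : ℂ :=
  if a = 0 then z else ((‖a‖ : ℂ) / a) * ((a - z) / (1 - starRingEnd ℂ a * z))

/-- `b` is an interpolating Blaschke product: the Blaschke product of a (finite or infinite)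
uniformly separated family of points of the unit disc. -/
def IsInterpolatingBlaschke (b : ℂ → ℂ) : Prop :=
  ∃ (ι : Type) (a : ι → ℂ) (δ₀ : ℝ), (∀ k, ‖a k‖ < 1) ∧ 0 < δ₀ ∧
    (∀ (k : ι) (S : Finset ι), k ∉ S →
      δ₀ ≤ ∏ j ∈ S, ‖(a k - a j) / (1 - starRingEnd ℂ (a j) * a k)‖) ∧
    ∀ z : ℂ, ‖z‖ < 1 → HasProd (fun k => blaschkeFactor (a k) z) (b z)

/-- the unimodular constant -/
noncomputable def uc (a : ℂ) : ℂ := if a = 0 then 1 else -((‖a‖ : ℂ) / a)

theorem uc_norm (a : ℂ) : ‖uc a‖ = 1 := by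
  unfold uc
  split_ifs with h
  · exact norm_one
  · rw [norm_neg, norm_div, Complex.norm_real, norm_norm, div_self (norm_ne_zero_iff.2 h)]

theorem factor_eq (a z : ℂ) : blaschkeFactor a z = uc a * bl a z := by
  unfold blaschkeFactor uc bl
  split_ifs with h
  · rw [h]
    simp
  · ring

variable {E : Type} [NormedAddCommGroup E] [NormedSpace ℂ E] [FiniteDimensional ℂ E]

/-- bounded holomorphic solutions of `F u + G w = 1` on `B` exist -/
def Solv {X : Type*} [NormedAddCommGroup X] [NormedSpace ℂ X] (B : Set X) (F G : X → ℂ) : Prop :=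
  ∃ u w : X → ℂ, DifferentiableOn ℂ u B ∧ DifferentiableOn ℂ w B ∧
    (∃ M : ℝ, ∀ p ∈ B, ‖u p‖ ≤ M ∧ ‖w p‖ ≤ M) ∧ ∀ p ∈ B, F p * u p + G p * w p = 1

theorem IsInterpolatingBlaschke.norm_le {b : ℂ → ℂ} (hb : IsInterpolatingBlaschke b) {z : ℂ}
    (hz : ‖z‖ < 1) : ‖b z‖ ≤ 1 := by
  obtain ⟨ι, a, δ₀, ha, -, -, hp⟩ := hb
  refine le_of_tendsto (hp z hz).norm (Eventually.of_forall fun S => ?_)
  refine Finset.prod_le_one (fun j _ => norm_nonneg _) (fun j _ => ?_)
  rw [factor_eq, norm_mul, uc_norm, one_mul]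
  exact bl_le_one (ha j) hz.le

/-- **One interpolating Blaschke product.** -/
theorem solv_blaschke {b : ℂ → ℂ} (hb : IsInterpolatingBlaschke b) {δ : ℝ} (hδ : 0 < δ)
    (hδ1 : δ ≤ 1) {G : ℂ × E → ℂ} (hd : DifferentiableOn ℂ G (BB E 1))
    (hG : ∀ p ∈ BB E 1, ‖G p‖ ≤ 1) (hc : ∀ p ∈ BB E 1, δ ≤ ‖b p.1‖ + ‖G p‖) :
    Solv (BB E 1) (fun p => b p.1) G := by
  classical
  obtain ⟨ι, a, δ₀, ha, hδ₀, hsep, hprod⟩ := hb
  have hfle : ∀ (k : ι) (z : ℂ), ‖z‖ < 1 → ‖blaschkeFactor (a k) z‖ ≤ 1 := by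
    intro k z hz
    rw [factor_eq, norm_mul, uc_norm, one_mul]
    exact bl_le_one (ha k) hz.le
  have hble : ∀ (z : ℂ), ‖z‖ < 1 → ∀ S : Finset ι, ‖b z‖ ≤ ‖∏ k ∈ S, blaschkeFactor (a k) z‖ := by
    intro z hz S
    refine le_of_tendsto (hprod z hz).norm ?_
    filter_upwards [eventually_ge_atTop S] with T hT
    rw [← Finset.prod_sdiff hT, norm_prod S]
    refine mul_le_of_le_one_left (Finset.prod_nonneg fun _ _ => norm_nonneg _) ?_
    exact Finset.prod_le_one (fun j _ => norm_nonneg _) (fun j _ => hfle j z hz)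
  have hbl : ∀ (S : Finset ι) (z : ℂ), ∏ k ∈ S, blaschkeFactor (a k) z =
      (∏ k ∈ S, uc (a k)) * ∏ k ∈ S, bl (a k) z := by
    intro S z
    rw [← Finset.prod_mul_distrib]
    exact Finset.prod_congr rfl (fun k _ => factor_eq _ _)
  have hucn : ∀ S : Finset ι, ‖∏ k ∈ S, uc (a k)‖ = 1 := by
    intro S
    rw [norm_prod]
    exact Finset.prod_eq_one (fun k _ => uc_norm _)
  have hS : ∀ S : Finset ι, Sep a S δ₀ := by
    intro S
    refine ⟨fun k _ => ha k, hδ₀, fun k hk => ?_⟩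
    exact hsep k (S.erase k) (Finset.notMem_erase k S)
  obtain ⟨u, w, hu, hw, hub, hwb, huw⟩ := bezout_lim (X := ℂ × E) (isOpen_BB 1)
    (C := 1 + MB δ₀ + MB δ₀ * KK (δ / 2)) (atTop : Filter (Finset ι))
    (fun S p => ∏ k ∈ S, blaschkeFactor (a k) p.1) (fun _ p => G p) (fun p => b p.1) G
    (fun p hp => hprod p.1 (fst_lt_one hp)) (fun p _ => tendsto_const_nhds) (by
      intro S
      obtain ⟨u, w, h1, h2, h3, h4, h5⟩ := fin_case (hS S) hδ hδ1 hd hG (fun p hp => by
        refine (hc p hp).trans ?_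
        gcongr
        have h1 := hble p.1 (fst_lt_one hp) S
        rw [hbl, norm_mul, hucn, one_mul] at h1
        exact h1)
      set c := ∏ k ∈ S, uc (a k) with hcdef
      have hcn : ‖c‖ = 1 := hucn S
      have hc0 : c ≠ 0 := by
        intro h
        rw [h, norm_zero] at hcn
        exact zero_ne_one hcn
      refine ⟨fun p => c⁻¹ * u p, w, h1.const_mul _, h2, ?_, h4, ?_⟩
      · intro p hp
        rw [norm_mul, norm_inv, hcn, inv_one, one_mul]
        exact h3 p hp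
      · intro p hp
        rw [hbl, ← hcdef]
        have h6 := h5 p hp
        calc c * (∏ k ∈ S, bl (a k) p.1) * (c⁻¹ * u p) + G p * w p
            = (c * c⁻¹) * ((∏ k ∈ S, bl (a k) p.1) * u p) + G p * w p := by ring
          _ = 1 := by rw [mul_inv_cancel₀ hc0, one_mul, h6])
  exact ⟨u, w, hu, hw, ⟨_, fun p hp => ⟨hub p hp, hwb p hp⟩⟩, huw⟩

section general

variable {X : Type*} [NormedAddCommGroup X] [NormedSpace ℂ X]

/-- products of solvable functions are solvable -/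
theorem Solv.prod {B : Set X} {J : Type*} (F : J → X → ℂ) {G : X → ℂ} {C : ℝ}
    (hGd : DifferentiableOn ℂ G B) (hG : ∀ p ∈ B, ‖G p‖ ≤ C) (S : Finset J)
    (h : ∀ j ∈ S, Solv B (F j) G) : Solv B (fun p => ∏ j ∈ S, F j p) G := by
  classical
  induction S using Finset.induction_on with
  | empty =>
    refine ⟨fun _ => 1, fun _ => 0, differentiableOn_const _, differentiableOn_const _,
      ⟨1, fun p _ => by simp⟩, fun p _ => by simp⟩
  | insert i S hi ih =>
    obtain ⟨u, w, hu, hw, ⟨M, hM⟩, huw⟩ := ih (fun j hj => h j (Finset.mem_insert_of_mem hj))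
    obtain ⟨u', w', hu', hw', ⟨M', hM'⟩, huw'⟩ := h i (Finset.mem_insert_self _ _)
    refine ⟨fun p => u' p * u p, fun p => w' p + (1 - G p * w' p) * w p, hu'.fun_mul hu,
      hw'.fun_add (((differentiableOn_const _).fun_sub (hGd.fun_mul hw')).fun_mul hw),
      ⟨M' * M + (M' + (1 + C * M') * M), fun p hp => ?_⟩, fun p hp => ?_⟩
    · obtain ⟨h1, h2⟩ := hM p hp
      obtain ⟨h3, h4⟩ := hM' p hp
      have h5 := hG p hp
      have hM0 : 0 ≤ M := (norm_nonneg _).trans h1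
      have hM0' : 0 ≤ M' := (norm_nonneg _).trans h3
      have hC0 : 0 ≤ C := (norm_nonneg _).trans h5
      have h6 : ‖u' p * u p‖ ≤ M' * M := by
        rw [norm_mul]
        gcongr
      have h7 : ‖w' p + (1 - G p * w' p) * w p‖ ≤ M' + (1 + C * M') * M := by
        refine (norm_add_le _ _).trans (add_le_add h4 ?_)
        rw [norm_mul]
        have h8 : ‖1 - G p * w' p‖ ≤ 1 + C * M' := by
          refine (norm_sub_le _ _).trans ?_
          rw [norm_one, norm_mul]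
          gcongr
        gcongr
      have h9 : 0 ≤ M' + (1 + C * M') * M := by positivity
      have h10 : 0 ≤ M' * M := by positivity
      exact ⟨by linarith, by linarith⟩
    · have h1 := huw p hp
      have h2 := huw' p hp
      beta_reduce at h1 ⊢
      rw [Finset.prod_insert hi]
      linear_combination (F i p * u' p) * h1 + (1 - G p * w p) * h2

/-- pulling back by an invertible map -/
theorem Solv.pull {B : Set X} {F G : X → ℂ} {ψ φ : X → X} (hψ : DifferentiableOn ℂ ψ B)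
    (hψm : MapsTo ψ B B) (hinv : ∀ p ∈ B, φ (ψ p) = p)
    (h : Solv B F (fun p => G (φ p))) : Solv B (fun p => F (ψ p)) G := by
  obtain ⟨u, w, hu, hw, ⟨M, hM⟩, huw⟩ := h
  refine ⟨fun p => u (ψ p), fun p => w (ψ p), hu.comp hψ hψm, hw.comp hψ hψm,
    ⟨M, fun p hp => hM _ (hψm hp)⟩, fun p hp => ?_⟩
  have := huw _ (hψm hp)
  simp only [hinv p hp] at this
  exact this

/-- scaling `G` -/
theorem Solv.scale {B : Set X} {F G : X → ℂ} {c : ℂ} (h : Solv B F (fun p => c * G p)) :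
    Solv B F G := by
  obtain ⟨u, w, hu, hw, ⟨M, hM⟩, huw⟩ := h
  refine ⟨u, fun p => c * w p, hu, hw.const_mul _, ⟨(1 + ‖c‖) * M, fun p hp => ?_⟩, fun p hp => ?_⟩
  · obtain ⟨h1, h2⟩ := hM p hp
    have hM0 : 0 ≤ M := (norm_nonneg _).trans h1
    constructor
    · have : 0 ≤ ‖c‖ * M := by positivity
      nlinarith
    · rw [norm_mul]
      have : ‖c‖ * ‖w p‖ ≤ ‖c‖ * M := by gcongr
      nlinarith
  · have := huw p hp
    linear_combination this

end general

/-! ### the ball of `ℂ^(n+1)` -/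

/-- The open Euclidean unit ball of `ℂⁿ`. -/
def Ball (n : ℕ) : Set (Fin n → ℂ) := {z | ∑ i, ‖z i‖ ^ 2 < 1}

/-- `ψ` is a holomorphic automorphism of the unit ball of `ℂⁿ`. -/
def IsAutomorphism {n : ℕ} (ψ : (Fin n → ℂ) → (Fin n → ℂ)) : Prop :=
  DifferentiableOn ℂ ψ (Ball n) ∧ MapsTo ψ (Ball n) (Ball n) ∧
    ∃ φ : (Fin n → ℂ) → (Fin n → ℂ), DifferentiableOn ℂ φ (Ball n) ∧ MapsTo φ (Ball n) (Ball n) ∧
      (∀ z ∈ Ball n, φ (ψ z) = z) ∧ ∀ z ∈ Ball n, ψ (φ z) = z

/-- splitting off the first coordinate -/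
noncomputable def spl {n : ℕ} (z : Fin (n + 1) → ℂ) : ℂ × EuclideanSpace ℂ (Fin n) :=
  (z 0, (EuclideanSpace.equiv (Fin n) ℂ).symm (fun i => z i.succ))

/-- and back -/
noncomputable def unspl {n : ℕ} (p : ℂ × EuclideanSpace ℂ (Fin n)) : Fin (n + 1) → ℂ :=
  Fin.cons p.1 (EuclideanSpace.equiv (Fin n) ℂ p.2)

theorem unspl_spl {n : ℕ} (z : Fin (n + 1) → ℂ) : unspl (spl z) = z := by
  funext i
  refine Fin.cases ?_ (fun i => ?_) i
  · simp [unspl, spl]
  · simp [unspl, spl]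

theorem spl_mem {n : ℕ} {z : Fin (n + 1) → ℂ} (hz : z ∈ Ball (n + 1)) :
    spl z ∈ BB (EuclideanSpace ℂ (Fin n)) 1 := by
  have h : ∑ i, ‖z i‖ ^ 2 < 1 := hz
  rw [Fin.sum_univ_succ] at h
  change ‖z 0‖ ^ 2 + ‖(EuclideanSpace.equiv (Fin n) ℂ).symm (fun i => z i.succ)‖ ^ 2 < 1
  rw [EuclideanSpace.norm_sq_eq]
  exact h

theorem unspl_mem {n : ℕ} {p : ℂ × EuclideanSpace ℂ (Fin n)}
    (hp : p ∈ BB (EuclideanSpace ℂ (Fin n)) 1) : unspl p ∈ Ball (n + 1) := by
  have h : ‖p.1‖ ^ 2 + ‖p.2‖ ^ 2 < 1 := hp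
  rw [EuclideanSpace.norm_sq_eq] at h
  change ∑ i, ‖unspl p i‖ ^ 2 < 1
  rw [Fin.sum_univ_succ]
  exact h

theorem spl_diff {n : ℕ} : Differentiable ℂ (spl (n := n)) := by
  refine Differentiable.prodMk ?_ ?_
  · fun_prop
  · refine (EuclideanSpace.equiv (Fin n) ℂ).symm.differentiable.comp ?_
    fun_prop

theorem unspl_diff {n : ℕ} : Differentiable ℂ (unspl (n := n)) := by
  rw [differentiable_pi]
  intro i
  refine Fin.cases ?_ (fun i => ?_) i
  · exact differentiable_fst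
  · have h1 : Differentiable ℂ (fun p : ℂ × EuclideanSpace ℂ (Fin n) =>
        (EuclideanSpace.equiv (Fin n) ℂ p.2) i) := by
      have h2 : Differentiable ℂ (fun p : ℂ × EuclideanSpace ℂ (Fin n) =>
        (EuclideanSpace.equiv (Fin n) ℂ p.2)) :=
        (EuclideanSpace.equiv (Fin n) ℂ).differentiable.comp differentiable_snd
      exact (differentiable_pi.1 h2) i
    exact h1

theorem solv_ball {n : ℕ} {b : ℂ → ℂ} (hb : IsInterpolatingBlaschke b) {δ : ℝ} (hδ : 0 < δ)
    {G : (Fin (n + 1) → ℂ) → ℂ} {C : ℝ} (hd : DifferentiableOn ℂ G (Ball (n + 1)))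
    (hG : ∀ z ∈ Ball (n + 1), ‖G z‖ ≤ C)
    (hc : ∀ z ∈ Ball (n + 1), δ ≤ ‖b (z 0)‖ + ‖G z‖) :
    Solv (Ball (n + 1)) (fun z => b (z 0)) G := by
  set K : ℝ := max C 1 with hK
  have hK1 : 1 ≤ K := le_max_right _ _
  have hKpos : 0 < K := by linarith
  set δ' : ℝ := min δ 1 / K with hδ'
  have hδ'pos : 0 < δ' := div_pos (lt_min hδ one_pos) hKpos
  have hδ'1 : δ' ≤ 1 := by
    rw [hδ', div_le_one hKpos]
    exact (min_le_right _ _).trans hK1
  have hsol : Solv (Ball (n + 1)) (fun z => b (z 0)) (fun z => ((1 / K : ℝ) : ℂ) * G z) := by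
    obtain ⟨u, w, hu, hw, ⟨M, hM⟩, huw⟩ := solv_blaschke (E := EuclideanSpace ℂ (Fin n)) hb hδ'pos
      hδ'1 (G := fun p => ((1 / K : ℝ) : ℂ) * G (unspl p))
      ((hd.comp unspl_diff.differentiableOn (fun p hp => unspl_mem hp)).const_mul _)
      (fun p hp => by
        rw [norm_mul, Complex.norm_real, Real.norm_of_nonneg (by positivity)]
        have h1 := hG _ (unspl_mem hp)
        have h2 : C ≤ K := le_max_left _ _
        calc 1 / K * ‖G (unspl p)‖ ≤ 1 / K * K := by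
              gcongr
              linarith
          _ = 1 := by field_simp)
      (fun p hp => by
        have h1 := hc _ (unspl_mem hp)
        have h0 : (unspl p) 0 = p.1 := rfl
        rw [h0] at h1
        rw [norm_mul, Complex.norm_real, Real.norm_of_nonneg (by positivity)]
        have h2 : ‖b p.1‖ / K ≤ ‖b p.1‖ := div_le_self (norm_nonneg _) hK1
        calc δ' ≤ δ / K := by
              rw [hδ']
              gcongr
              exact min_le_left _ _
          _ ≤ (‖b p.1‖ + ‖G (unspl p)‖) / K := by gcongr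
          _ = ‖b p.1‖ / K + 1 / K * ‖G (unspl p)‖ := by ring
          _ ≤ _ := by linarith)
    refine ⟨fun z => u (spl z), fun z => w (spl z), hu.comp spl_diff.differentiableOn
      (fun z hz => spl_mem hz), hw.comp spl_diff.differentiableOn (fun z hz => spl_mem hz),
      ⟨M, fun z hz => hM _ (spl_mem hz)⟩, fun z hz => ?_⟩
    have h1 := huw _ (spl_mem hz)
    simp only [unspl_spl] at h1
    exact h1
  exact hsol.scale

end Pool.Agent.H720R2.Cor
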